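import Pool.Agent.TH710.NW.Line
import Pool.Agent.H159R3.War.Special

/-!
Pseudo-Brody hyperbolicity and special sets of quasi-projective varieties given by towers.
-/

set_option autoImplicit false

namespace Pool.Agent.TH710.NW

open MvPolynomial Pool.Agent.H159R3.War Pool.Agent.H159R3.WarLog

variable {n : ℕ} {ι κ : Type}

theorem closed_at [Finite κ] (F : ι → MvPolynomial (Fin (n + 1)) ℂ)
    (Q : κ → MvPolynomial (Fin (n + 1)) ℂ) (d : κ → ℕ) (hF : ∀ i, Stab (F i))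
    (hQ : ∀ j, StabLog (Q j) (d j)) (x0 : Fin (n + 1) → ℂ) (hx0 : x0 ∈ Pts F Q)
    (hno : ∀ q, ¬ PuncturedLine F Q x0 q) :
    ∃ G : MvPolynomial (Fin (n + 1)) ℂ, (∃ e, G.IsHomogeneous e) ∧ eval x0 G ≠ 0 ∧
      ∀ f, EntireCurve F Q f → ∀ z, eval (f z) G = 0 := by
  classical
  have := Fintype.ofFinite κ
  have hd : ∀ j, 0 < d j := fun j => (hQ j).pos
  obtain ⟨l, hl⟩ := Function.ne_iff.mp hx0.1
  have hl' : x0 l ≠ 0 := hl
  have hD : ∀ T : Finset κ, ∃ D : MvPolynomial (Fin (n + 1)) ℂ, eval x0 D ≠ 0 ∧ ∀ x Y, Y ≠ 0 →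
      (∀ c : ℂ, c ≠ 0 → ∀ a, eval (c • Y) (map (eval x) (eqs F Q d l T a)) = 0) →
        eval x D = 0 := fun T =>
    elim (m' := n + 2) (eqs F Q d l T) x0 (eqs_trivial F Q d (fun i => (hF i).hom)
      (fun j => (hQ j).hom) hd x0 hx0 hno l hl' T)
  choose D hD0 hD using hD
  set G : MvPolynomial (Fin (n + 1)) ℂ := X l * ∏ T, D T with hG
  have hG0 : eval x0 G ≠ 0 := by
    rw [hG, map_mul, map_prod, eval_X]
    exact mul_ne_zero hl' (Finset.prod_ne_zero_iff.mpr fun T _ => hD0 T)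
  have hGf : ∀ f, EntireCurve F Q f → ∀ z, eval (f z) G = 0 := by
    intro f hf z
    rw [hG, map_mul, map_prod, eval_X]
    by_cases hfl : f z l = 0
    · rw [hfl, zero_mul]
    · obtain ⟨w, hw⟩ := other F (toGGL hf) z
      obtain ⟨v, u, T, hline, hQv⟩ := log_line F hF Q d hQ f hf.1 (fun z => (hf.2.1 z).2.1)
        (fun z => (hf.2.1 z).2.2) z w hw
      obtain ⟨Y, hY, hYe⟩ := eqs_solution F Q d (f z) v hline.1 hline.2 u
        (Finset.univ.filter (fun j => j ∈ T))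
        (fun j hj s t => (hQv j s t).1 (Finset.mem_filter.mp hj).2)
        (fun j hj s t => (hQv j s t).2 (fun h => hj (Finset.mem_filter.mpr ⟨Finset.mem_univ j, h⟩)))
        l hfl
      have h0 := hD _ _ Y hY hYe
      rw [Finset.prod_eq_zero (f := fun T => eval (f z) (D T)) (Finset.mem_univ _) h0, mul_zero]
  have hcomp : ∃ e, eval x0 (homogeneousComponent e G) ≠ 0 := by
    by_contra hcon
    push Not at hcon
    apply hG0
    rw [← sum_homogeneousComponent G, map_sum]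
    exact Finset.sum_eq_zero fun e _ => hcon e
  obtain ⟨e, he⟩ := hcomp
  refine ⟨_, ⟨e, homogeneousComponent_isHomogeneous e _⟩, he, ?_⟩
  intro f hf z
  exact comp_eval_zero _ (f z) (fun c hc => hGf _ (scale (fun i => (hF i).hom)
    (fun j => ⟨_, (hQ j).hom⟩) hf hc) z) e

/-- The pseudo-Brody hyperbolic varieties of this kind are those not covered by punctured lines. -/
theorem main [Finite κ] (F : ι → MvPolynomial (Fin (n + 1)) ℂ)
    (Q : κ → MvPolynomial (Fin (n + 1)) ℂ) (hF : ∀ i, Stab (F i))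
    (hQ : ∀ j, ∃ d, StabLog (Q j) d) :
    PseudoBrody F Q ↔ ∃ x ∈ Pts F Q, ∀ q, ¬ PuncturedLine F Q x q := by
  choose d hd using hQ
  constructor
  · rintro ⟨G, -, ⟨x1, hx1, hx1G⟩, hG⟩
    refine ⟨x1, hx1, fun q hq => hx1G ?_⟩
    obtain ⟨f, hf, hf0⟩ := curve_of_line F Q hq
    rw [← hf0]
    exact hG f hf 0
  · rintro ⟨x0, hx0, hno⟩
    obtain ⟨G, hGd, hG0, hG⟩ := closed_at F Q d hF hd x0 hx0 hno
    exact ⟨G, hGd, ⟨x0, hx0, hG0⟩, hG⟩

/-- The special sets: the Zariski closure of the union of all entire curves is the union of the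
images of the multiplicative group. -/
theorem special [Finite κ] (F : ι → MvPolynomial (Fin (n + 1)) ℂ)
    (Q : κ → MvPolynomial (Fin (n + 1)) ℂ) (hF : ∀ i, Stab (F i))
    (hQ : ∀ j, ∃ d, StabLog (Q j) d) : zcl F Q (holPoints F Q) = gmPoints F Q := by
  choose d hd using hQ
  ext x
  constructor
  · rintro ⟨hx, h⟩
    by_cases hno : ∀ q, ¬ PuncturedLine F Q x q
    · obtain ⟨G, hG1, hG2, hG3⟩ := closed_at F Q d hF hd x hx hno
      refine absurd (h G hG1 ?_) hG2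
      rintro _ ⟨f, z, hf, rfl⟩
      exact hG3 f hf z
    · push Not at hno
      obtain ⟨q, hq⟩ := hno
      obtain ⟨v, hv, hv1⟩ := torus_of_line F Q hq
      exact ⟨v, 1, hv, one_ne_zero, hv1⟩
  · rintro ⟨v, t, hv, ht, rfl⟩
    refine ⟨hv.2.1 t ht, fun G _ hG => hG _ ⟨_, Complex.log t, hv.entire, ?_⟩⟩
    simp only [Complex.exp_log ht]

end Pool.Agent.TH710.NW
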