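import Pool.Agent.TH710.NW.Brody
import Pool.Agent.W603.BP.WMain

/-!
Picard hyperbolicity of quasi-projective varieties given by towers.
-/

set_option autoImplicit false

namespace Pool.Agent.TH710.NW

open MvPolynomial Filter Metric Topology Pool.Agent.H159R3.War Pool.Agent.H159R3.WarLog
  Pool.Agent.W603.BP Pool.Agent.W603.BPW

variable {n : ℕ} {ι κ : Type}

theorem gen_line [Finite κ] (F : ι → MvPolynomial (Fin (n + 1)) ℂ) (hF : ∀ i, Stab (F i))
    (Q : κ → MvPolynomial (Fin (n + 1)) ℂ) (d : κ → ℕ) (hQ : ∀ j, StabLog (Q j) (d j))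
    (f : ℂ → Fin (n + 1) → ℂ) (hf : PCurve F Q f) (hE : ¬ Extends f)
    (G : MvPolynomial (Fin (n + 1)) ℂ) (z1 : ℂ) (hz1 : z1 ∈ ball (0 : ℂ) 1 \ {0})
    (hG : eval (f z1) G ≠ 0) : ∃ z ∈ ball (0 : ℂ) 1 \ {0}, eval (f z) G ≠ 0 ∧
      HasLine F Q d (f z) := by
  classical
  have := Fintype.ofFinite κ
  have hd : ∀ j, 0 < d j := fun j => (hQ j).pos
  have hfa := hf.an
  have hfP : ∀ k, Pun (fun w => f w k) := fun k => on_pun one_pos (hfa k)
  set D : ℕ := ∏ j, d j with hDdef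
  have hD : 0 < D := Finset.prod_pos fun j _ => hd j
  have hDd : ∀ j, D / d j * d j = D := fun j =>
    Nat.div_mul_cancel (Finset.dvd_prod_of_mem d (Finset.mem_univ j))
  let φ : Fin (n + 1) → ℂ → ℂ := fun k w => f (w ^ D) k
  have hφ : ∀ k, Pun (φ k) := fun k => (hfP k).comp_pow hD
  have hX : ∀ᶠ w in 𝓝[≠] (0 : ℂ), f w ∈ Pts F Q := by
    filter_upwards [PB_mem one_pos] with w hw
    exact hf.2 w (mem_disc.mpr hw)
  have hXD : ∀ᶠ w in 𝓝[≠] (0 : ℂ), f (w ^ D) ∈ Pts F Q := (tendsto_pow_punct hD).eventually hX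
  -- roots
  have hroot : ∀ j, ∃ r : ℂ → ℂ, Pun r ∧
      ∀ᶠ w in 𝓝[≠] (0 : ℂ), r w ^ d j = eval (fun k => φ k w) (Q j) := by
    intro j
    obtain ⟨g, hg1, hg2⟩ := root (pun_eval hfP (Q j)) (by
      filter_upwards [hX] with w hw
      exact hw.2.2 j) hD
    refine ⟨fun t => g t ^ (D / d j), hg1.pow _, ?_⟩
    filter_upwards [hg2] with w hw
    rw [← pow_mul, hDd, hw]
  choose r hr hrQ using hroot
  have hr0 : ∀ j, ∀ᶠ w in 𝓝[≠] (0 : ℂ), r j w ≠ 0 := by
    intro j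
    filter_upwards [hrQ j, hXD] with w h1 h2 h3
    rw [h3, zero_pow (hd j).ne'] at h1
    exact h2.2.2 j h1.symm
  have hφF : ∀ i, ∀ᶠ w in 𝓝[≠] (0 : ℂ), eval (fun k => φ k w) (F i) = 0 := by
    intro i
    filter_upwards [hXD] with w hw
    exact hw.2.1 i
  -- a nonzero coordinate
  obtain ⟨k0, hk0⟩ : ∃ k, Nz (φ k) := by
    by_contra hcon
    have h1 : ∀ᶠ w in 𝓝[≠] (0 : ℂ), ∀ k, φ k w = 0 := by
      rw [Filter.eventually_all]
      intro k
      by_contra hk
      exact hcon ⟨k, hk⟩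
    obtain ⟨w, hw1, hw2⟩ := (h1.and hXD).exists
    exact hw2.1 (funext hw1)
  have hz : ∀ (l : Gm →ₗ[MG] MG) j, (∀ k, l (gm (φ k)) = 0) → l (gm (r j)) = 0 := by
    intro l j hl
    obtain ⟨ν, hν, hνe⟩ : ∃ ν : ℂ → ℂ, MeromorphicAt ν 0 ∧ gm ν = l (gm (r j)) :=
      (l (gm (r j))).2
    have h1 := (hQ j).g φ (fun _ _ => 0) hφ (r j) ν (hr j) (hrQ j) (incl ∘ₗ l)
      (by
        intro k
        have h2 : (incl ∘ₗ l) (gm (φ k)) = 0 := by
          rw [LinearMap.comp_apply, hl k, map_zero]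
        rw [h2]
        exact map_zero gm)
      hνe
    have h3 : gm ν = 0 := by
      rw [gm_eq_zero]
      filter_upwards [h1] with w hw
      have h4 : eval (fun _ : Fin (n + 1) => (0 : ℂ)) (Q j) = 0 := by
        have h5 := eval_smul_hom (hQ j).hom (0 : ℂ) (fun _ => (0 : ℂ))
        rw [zero_pow (hd j).ne', zero_mul] at h5
        have e : ((0 : ℂ) • fun _ : Fin (n + 1) => (0 : ℂ)) = fun _ => 0 := by
          funext k
          simp
        rwa [e] at h5
      rw [h4] at hw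
      exact eq_zero_of_pow_eq_zero hw.symm
    rw [hνe] at h3
    exact Subtype.ext h3
  obtain ⟨l, u, T, ⟨k1, hk1⟩, hT⟩ := exists_lambda r hr hr0 φ k0 hk0 hz
  have hμ : ∀ k, ∃ μ : ℂ → ℂ, MeromorphicAt μ 0 ∧ gm μ = l (gm (φ k)) := fun k =>
    (l (gm (φ k))).2
  choose μ hμm hμe using hμ
  have hν : ∀ j, ∃ ν : ℂ → ℂ, MeromorphicAt ν 0 ∧ gm ν = l (gm (r j)) := fun j =>
    (l (gm (r j))).2
  choose ν hνm hνe using hν
  have hFst : ∀ i (s t : ℂ), ∀ᶠ w in 𝓝[≠] (0 : ℂ),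
      eval (fun k => s * φ k w + t * μ k w) (F i) = 0 := fun i s t =>
    (hF i).g φ (fun k w => s * φ k w + t * μ k w) hφ (hφF i) (op l s t)
      (fun k => (op_apply l s t (φ k) (μ k) (hμe k)).symm)
  have hQst : ∀ j (s t : ℂ), ∀ᶠ w in 𝓝[≠] (0 : ℂ),
      eval (fun k => s * φ k w + t * μ k w) (Q j) = (s * r j w + t * ν j w) ^ d j :=
    fun j s t => (hQ j).g φ (fun k w => s * φ k w + t * μ k w) hφ (r j)
      (fun w => s * r j w + t * ν j w) (hr j) (hrQ j) (op l s t)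
      (fun k => (op_apply l s t (φ k) (μ k) (hμe k)).symm)
      (op_apply l s t (r j) (ν j) (hνe j)).symm
  have hT1 : ∀ j, j ∈ T → ∀ᶠ w in 𝓝[≠] (0 : ℂ), ν j w = u w * r j w := by
    intro j hj
    rw [← gm_eq, gm_mul, hνe, (hT j).1 hj]
  have hT2 : ∀ j, j ∉ T → ∀ᶠ w in 𝓝[≠] (0 : ℂ), ν j w = 0 := by
    intro j hj
    rw [← gm_eq_zero, hνe, (hT j).2 hj]
    rfl
  -- the good punctured neighbourhood
  obtain ⟨δ, hδ, hgood⟩ : ∃ δ > 0, ∀ w ∈ PB δ, (∀ k, AnalyticAt ℂ (φ k) w) ∧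
      (∀ k, AnalyticAt ℂ (μ k) w) ∧ (∀ j, AnalyticAt ℂ (r j) w) ∧ (∀ j, AnalyticAt ℂ (ν j) w) ∧
      (∀ j, r j w ≠ 0) ∧ (∀ j, r j w ^ d j = eval (fun k => φ k w) (Q j)) ∧
      (∀ j, (j ∈ T → ν j w = u w * r j w) ∧ (j ∉ T → ν j w = 0)) ∧ w ^ D ∈ PB 1 := by
    rw [← ev_iff]
    have a1 : ∀ᶠ w in 𝓝[≠] (0 : ℂ), ∀ k, AnalyticAt ℂ (φ k) w := by
      rw [Filter.eventually_all]; exact hφ
    have a2 : ∀ᶠ w in 𝓝[≠] (0 : ℂ), ∀ k, AnalyticAt ℂ (μ k) w := by
      rw [Filter.eventually_all]; exact fun k => Pun.mero (hμm k)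
    have a3 : ∀ᶠ w in 𝓝[≠] (0 : ℂ), ∀ j, AnalyticAt ℂ (r j) w := by
      rw [Filter.eventually_all]; exact hr
    have a4 : ∀ᶠ w in 𝓝[≠] (0 : ℂ), ∀ j, AnalyticAt ℂ (ν j) w := by
      rw [Filter.eventually_all]; exact fun k => Pun.mero (hνm k)
    have a5 : ∀ᶠ w in 𝓝[≠] (0 : ℂ), ∀ j, r j w ≠ 0 := by
      rw [Filter.eventually_all]; exact hr0
    have a6 : ∀ᶠ w in 𝓝[≠] (0 : ℂ), ∀ j, r j w ^ d j = eval (fun k => φ k w) (Q j) := by
      rw [Filter.eventually_all]; exact hrQ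
    have a7 : ∀ᶠ w in 𝓝[≠] (0 : ℂ), ∀ j, (j ∈ T → ν j w = u w * r j w) ∧
        (j ∉ T → ν j w = 0) := by
      rw [Filter.eventually_all]
      intro j
      by_cases hj : j ∈ T
      · filter_upwards [hT1 j hj] with w hw
        exact ⟨fun _ => hw, fun h => absurd hj h⟩
      · filter_upwards [hT2 j hj] with w hw
        exact ⟨fun h => absurd h hj, fun _ => hw⟩
    filter_upwards [a1, a2, a3, a4, a5, a6, a7,
      (tendsto_pow_punct hD).eventually (PB_mem one_pos)] with w b1 b2 b3 b4 b5 b6 b7 b8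
    exact ⟨b1, b2, b3, b4, b5, b6, b7, b8⟩
  have hFd : ∀ i (s t : ℂ), ∀ w ∈ PB δ, eval (fun k => s * φ k w + t * μ k w) (F i) = 0 := by
    intro i s t
    apply eq_zero_on hδ _ (hFst i s t)
    intro w hw
    obtain ⟨b1, b2, -⟩ := hgood w hw
    exact eval_fun_an (y := fun k w => s * φ k w + t * μ k w)
      (fun k => (analyticAt_const.fun_mul (b1 k)).fun_add (analyticAt_const.fun_mul (b2 k))) _
  have hQd : ∀ j (s t : ℂ), ∀ w ∈ PB δ,
      eval (fun k => s * φ k w + t * μ k w) (Q j) = (s * r j w + t * ν j w) ^ d j := by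
    intro j s t w hw
    have h1 : AnalyticOnNhd ℂ (fun w => eval (fun k => s * φ k w + t * μ k w) (Q j)
        - (s * r j w + t * ν j w) ^ d j) (PB δ) := by
      intro w hw
      obtain ⟨b1, b2, b3, b4, -⟩ := hgood w hw
      apply AnalyticAt.fun_sub
      · exact eval_fun_an (y := fun k w => s * φ k w + t * μ k w)
          (fun k => (analyticAt_const.fun_mul (b1 k)).fun_add (analyticAt_const.fun_mul (b2 k))) _
      · exact ((analyticAt_const.fun_mul (b3 j)).fun_add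
          (analyticAt_const.fun_mul (b4 j))).fun_pow _
    have h2 := eq_zero_on hδ h1 (by
      filter_upwards [hQst j s t] with w hw
      rw [hw, sub_self]) w hw
    exact sub_eq_zero.mp h2
  -- a good point
  obtain ⟨w, hw, hGw, hli⟩ : ∃ w ∈ PB δ, eval (f (w ^ D)) G ≠ 0 ∧
      LinearIndependent ℂ ![f (w ^ D), fun k => μ k w] := by
    by_contra hcon
    push Not at hcon
    have hGn : Nz (fun w => eval (fun k => φ k w) G) := by
      have h1 : Nz (fun w => eval (f w) G) := nz_of_on (eval_an hfa G) (mem_disc.mp hz1) hG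
      exact h1.comp_pow hD
    have hGp : Pun (fun w => eval (fun k => φ k w) G) := pun_eval hφ G
    have hminor : ∀ j k, ∀ᶠ w in 𝓝[≠] (0 : ℂ), φ j w * μ k w - φ k w * μ j w = 0 := by
      intro j k
      have h1 : Pun (fun w => φ j w * μ k w - φ k w * μ j w) := by
        filter_upwards [(hφ j).mul (Pun.mero (hμm k)), (hφ k).mul (Pun.mero (hμm j))] with w c1 c2
        exact c1.fun_sub c2
      have h2 : ∀ᶠ w in 𝓝[≠] (0 : ℂ),
          eval (fun k => φ k w) G * (φ j w * μ k w - φ k w * μ j w) = 0 := by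
        filter_upwards [PB_mem hδ] with w hw
        by_contra hne
        have h3 : eval (f (w ^ D)) G ≠ 0 := left_ne_zero_of_mul hne
        have h4 : φ j w * μ k w - φ k w * μ j w ≠ 0 := right_ne_zero_of_mul hne
        apply hcon w hw h3
        rw [LinearIndependent.pair_iff]
        intro s t hst
        have e1 : s * φ j w + t * μ j w = 0 := congrFun hst j
        have e2 : s * φ k w + t * μ k w = 0 := congrFun hst k
        have e3 : s * (φ j w * μ k w - φ k w * μ j w) = 0 := by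
          linear_combination μ k w * e1 - μ j w * e2
        have e4 : t * (φ j w * μ k w - φ k w * μ j w) = 0 := by
          linear_combination φ j w * e2 - φ k w * e1
        exact ⟨(mul_eq_zero.mp e3).resolve_right h4, (mul_eq_zero.mp e4).resolve_right h4⟩
      rcases pun_mul_zero hGp h1 h2 with h3 | h3
      · exact absurd h3 hGn
      · exact h3
    have hμn : Nz (μ k1) := by
      intro h0
      apply hk1
      apply Subtype.ext
      rw [← hμe]
      exact gm_eq_zero.mpr h0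
    have hμk := mero_ne (hμm k1) hμn
    have hrel : ∀ j, MRel (φ j) (φ k1) := by
      intro j
      refine ⟨fun w => μ j w / μ k1 w, (hμm j).fun_div (hμm k1), ?_⟩
      filter_upwards [hminor j k1, hμk] with w h1 h2
      field_simp
      linear_combination h1
    apply hE
    apply extends_of f hfa (fun w hw => (hf.2 w (mem_disc.mpr hw)).1)
    intro j k hj hk
    have hk' : Nz (φ k) := hk.comp_pow hD
    have h1 : Gr (φ j) (φ k) := (hrel j).gr.trans ((hrel k).symm hk').gr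
    exact growth_mero (hfP j) (hfP k) hk (gr_descend hD h1)
  obtain ⟨b1, b2, b3, b4, b5, b6, b7, b8⟩ := hgood w hw
  refine ⟨w ^ D, mem_disc.mpr b8, hGw, fun k => μ k w, u w, T, ⟨hli, fun i s t => ?_⟩, ?_⟩
  · exact hFd i s t w hw
  · intro j s t
    have h1 : eval (s • f (w ^ D) + t • fun k => μ k w) (Q j) = (s * r j w + t * ν j w) ^ d j :=
      hQd j s t w hw
    have h2 : eval (f (w ^ D)) (Q j) = r j w ^ d j := (b6 j).symm
    constructor
    · intro hj
      rw [h1, h2, (b7 j).1 hj, ← mul_pow]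
      congr 1
      ring
    · intro hj
      rw [h1, h2, (b7 j).2 hj, ← mul_pow]
      congr 1
      ring

/-- The union of the images of all essential maps from the punctured disc is the Zariski closed
union of the images of the multiplicative group. -/
theorem pic_eq [Finite κ] (F : ι → MvPolynomial (Fin (n + 1)) ℂ)
    (Q : κ → MvPolynomial (Fin (n + 1)) ℂ) (hF : ∀ i, Stab (F i))
    (hQ : ∀ j, ∃ d, StabLog (Q j) d) :
    zcl F Q (picPoints F Q) = gmPoints F Q ∧ picPoints F Q = gmPoints F Q := by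
  choose d hd using hQ
  have hd0 : ∀ j, 0 < d j := fun j => (hd j).pos
  have h1 : zcl F Q (picPoints F Q) ⊆ gmPoints F Q := by
    rintro x ⟨hx, h⟩
    by_cases hno : ∀ q, ¬ PuncturedLine F Q x q
    · obtain ⟨G, hG1, hG2, hG3⟩ := closed_pts F Q d (fun i => (hF i).hom)
        (fun j => (hd j).hom) hd0 x hx hno
      refine absurd (h G hG1 ?_) hG2
      rintro _ ⟨f, z, hf, hE, hz, rfl⟩
      by_contra hne
      obtain ⟨z', hz', hGz', hl⟩ := gen_line F hF Q d hd f hf hE G z hz hne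
      exact hGz' (hG3 _ hl)
    · push Not at hno
      obtain ⟨q, hq⟩ := hno
      obtain ⟨v, hv, hv1⟩ := torus_of_line F Q hq
      exact ⟨v, 1, hv, one_ne_zero, hv1⟩
  have h2 : picPoints F Q ⊆ zcl F Q (picPoints F Q) := by
    intro x hx
    refine ⟨?_, fun G _ hG => hG x hx⟩
    obtain ⟨f, z, hf, -, hz, rfl⟩ := hx
    exact hf.2 z hz
  have h3 := gm_sub_pic F Q
  exact ⟨Set.Subset.antisymm h1 (h3.trans h2), Set.Subset.antisymm (h2.trans h1) h3⟩

/-- pseudo-Picard hyperbolicity is pseudo-Brody hyperbolicity -/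
theorem pseudo_iff [Finite κ] (F : ι → MvPolynomial (Fin (n + 1)) ℂ)
    (Q : κ → MvPolynomial (Fin (n + 1)) ℂ) (hF : ∀ i, Stab (F i))
    (hQ : ∀ j, ∃ d, StabLog (Q j) d) : PseudoPicard F Q ↔ PseudoBrody F Q := by
  constructor
  · rintro ⟨G, hG, hx, hf⟩
    refine ⟨G, hG, hx, fun f hfc z => ?_⟩
    by_contra hz
    obtain ⟨h1, h2⟩ := sin_curve' hfc
    obtain ⟨w, hw, hwz⟩ := sin_point z
    exact h2 (hf _ h1 ⟨w, hw, by rw [hwz]; exact hz⟩)
  · rintro ⟨G, hG, hx, hf⟩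
    refine ⟨G, hG, hx, ?_⟩
    rintro f hfc ⟨z, hz, hGz⟩
    by_contra hE
    have h1 : f z ∈ picPoints F Q := ⟨f, z, hfc, hE, hz, rfl⟩
    rw [(pic_eq F Q hF hQ).2] at h1
    obtain ⟨v, t, hv, ht, hvt⟩ := h1
    apply hGz
    rw [← hvt]
    have h2 := hf _ hv.entire (Complex.log t)
    simpa only [Complex.exp_log ht] using h2

/-- Picard hyperbolicity is Brody hyperbolicity -/
theorem picard_iff [Finite κ] (F : ι → MvPolynomial (Fin (n + 1)) ℂ)
    (Q : κ → MvPolynomial (Fin (n + 1)) ℂ) (hF : ∀ i, Stab (F i))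
    (hQ : ∀ j, ∃ d, StabLog (Q j) d) :
    (∀ f, PCurve F Q f → Extends f) ↔ ∀ f, ¬ EntireCurve F Q f := by
  constructor
  · intro h f hf
    obtain ⟨h1, h2⟩ := sin_curve' hf
    exact h2 (h _ h1)
  · intro h f hf
    by_contra hE
    have hz : (1 / 2 : ℂ) ∈ ball (0 : ℂ) 1 \ {0} := by
      refine ⟨?_, ?_⟩
      · rw [mem_ball, dist_zero_right]
        norm_num
      · intro h0
        have h0' : (1 / 2 : ℂ) = 0 := h0
        norm_num at h0'
    have h1 : f (1 / 2) ∈ picPoints F Q := ⟨f, _, hf, hE, hz, rfl⟩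
    rw [(pic_eq F Q hF hQ).2] at h1
    obtain ⟨v, t, hv, -, -⟩ := h1
    exact h _ hv.entire

end Pool.Agent.TH710.NW
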