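import Pool.Agent.TH710.NW.Fam
import Pool.Agent.TH710.NW.Brody
import Pool.Agent.TH710.NW.Picard

/-!
Special sets and log general type for quasi-projective varieties given by towers.
-/

set_option autoImplicit false

open FF MvPolynomial Pool.Agent.W603.LV Pool.Agent.W603.PV Pool.Agent.W603.GR
  Pool.Agent.W602.GT Pool.Agent.H159R3.War Pool.Agent.H159R3.WarLog Pool.Agent.W603.BPR
  Pool.Agent.W603.BP Pool.Agent.W603.BPW Pool.Agent.W603.GW Pool.Agent.W603.GX
  Pool.Agent.W603.GY Pool.Agent.TH143.GT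

namespace Pool.Agent.TH710.NW

variable {n : ℕ} {ι κ : Type}

theorem StabLog.deg_of {Q : MvPolynomial (Fin (n + 1)) ℂ} {d : ℕ} (hQ : StabLog Q d)
    (h0 : Q ≠ 0) : Q.totalDegree = d :=
  hQ.hom.totalDegree h0

theorem hom_deg {Q : MvPolynomial (Fin (n + 1)) ℂ} (hQ : ∃ d, StabLog Q d) :
    Q.IsHomogeneous Q.totalDegree := by
  obtain ⟨d, hd⟩ := hQ
  by_cases h0 : Q = 0
  · rw [h0, totalDegree_zero]
    exact isHomogeneous_zero _ _ _
  · rw [hd.deg_of h0]
    exact hd.hom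

/-- the line through a point of the special set -/
theorem gm_line [Finite κ] (F : ι → MvPolynomial (Fin (n + 1)) ℂ)
    (Q : κ → MvPolynomial (Fin (n + 1)) ℂ) (hF : ∀ i, Stab (F i))
    (hQ : ∀ j, ∃ d, StabLog (Q j) d) {x : Fin (n + 1) → ℂ} (hx : x ∈ gmPoints F Q) :
    ∃ (v : Fin (n + 1) → ℂ) (m : κ → ℂ), (∃ i j, x i * v j - x j * v i ≠ 0) ∧
      (∀ (c : ℂ) (i : ι), Pool.Agent.W602.GT.val (fun t => x t + c * v t) (F i) = 0) ∧
      (∀ (c : ℂ) (j : κ), Pool.Agent.W602.GT.val (fun t => x t + c * v t) (Q j) =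
        Pool.Agent.W602.GT.val x (Q j) * (1 + c * m j) ^ (Q j).totalDegree) ∧
      ∀ j j', m j * m j' * (m j - m j') = 0 := by
  classical
  choose d hd using hQ
  obtain ⟨v0, t, hv, ht, rfl⟩ := hx
  have hE := hv.entire
  obtain ⟨w, hw⟩ := other F (toGGL hE) (Complex.log t)
  obtain ⟨v, u, T, hline, hQv⟩ := log_line F hF Q d hd (fun z => v0 (Complex.exp z)) hE.1
    (fun z => (hE.2.1 z).2.1) (fun z => (hE.2.1 z).2.2) (Complex.log t) w hw
  simp only [Complex.exp_log ht] at hline hQv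
  have hdeg : ∀ j, (Q j).totalDegree = d j := fun j => (hd j).deg_of (by
    intro h0
    apply (hv.2.1 t ht).2.2 j
    rw [h0, map_zero])
  have hfun : ∀ c : ℂ, (fun i => v0 t i + c * v i) = (1 : ℂ) • v0 t + c • v := by
    intro c
    funext i
    simp
  refine ⟨v, fun j => if j ∈ T then u else 0, exists_minor hline.1, fun c i => ?_, fun c j => ?_,
    fun j j' => ?_⟩
  · rw [← eval_eq_val, hfun]
    exact hline.2 i 1 c
  · rw [← eval_eq_val, ← eval_eq_val, hfun, hdeg]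
    beta_reduce
    by_cases hj : j ∈ T
    · rw [(hQv j 1 c).1 hj, if_pos hj, mul_comm u]
    · rw [(hQv j 1 c).2 hj, if_neg hj, mul_zero, add_zero]
  · beta_reduce
    by_cases hj : j ∈ T
    · by_cases hj' : j' ∈ T
      · rw [if_pos hj, if_pos hj', sub_self, mul_zero]
      · rw [if_neg hj', mul_zero, zero_mul]
    · rw [if_neg hj, zero_mul, zero_mul]

/-- through each point of the special set there is a punctured line -/
theorem exists_line [Finite κ] (F : ι → MvPolynomial (Fin (n + 1)) ℂ)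
    (Q : κ → MvPolynomial (Fin (n + 1)) ℂ) (hF : ∀ i, Stab (F i))
    (hQ : ∀ j, ∃ d, StabLog (Q j) d) {x : Fin (n + 1) → ℂ} (hx : x ∈ gmPoints F Q) :
    ∃ q, PuncturedLine F Q x q := by
  choose d hd using hQ
  have hd0 : ∀ j, 0 < d j := fun j => (hd j).pos
  by_contra hno
  push Not at hno
  obtain ⟨f, z, hf, hE, hz, rfl⟩ := gm_sub_pic F Q hx
  obtain ⟨G, hG1, hG2, hG3⟩ := closed_pts F Q d (fun i => (hF i).hom)
    (fun j => (hd j).hom) hd0 _ (hf.2 z hz) hno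
  obtain ⟨z', hz', hGz', hl⟩ := gen_line F hF Q d hd f hf hE G z hz hG2
  exact hGz' (hG3 _ hl)

theorem gm_sub_alg [Finite κ] (F : ι → MvPolynomial (Fin (n + 1)) ℂ)
    (Q : κ → MvPolynomial (Fin (n + 1)) ℂ) (hF : ∀ i, Stab (F i))
    (hQ : ∀ j, ∃ d, StabLog (Q j) d) : gmPoints F Q ⊆ SpAlgQ F Q := by
  intro x hx
  obtain ⟨q, hq⟩ := exists_line F Q hF hQ hx
  have hxP : x ∈ Pts F Q := by
    obtain ⟨v, t, hv, ht, rfl⟩ := hx
    exact hv.2.1 t ht
  refine ⟨hxP, fun G ⟨d, hG⟩ h => ?_⟩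
  have h1 := h (RatFunc ℂ) 1 (gpt x q) le_rfl (line_sub hq)
    (line_not_lgt hq fun j => hom_deg (hQ j))
  obtain ⟨R, hR1, hR2⟩ := line_poly x q G
  have hR : R = 0 := by
    by_contra hne
    exact RatFunc.transcendental_X ⟨R, hne, (hR2 _ RatFunc.X).trans h1⟩
  obtain ⟨R', hR1', -⟩ := line_poly q x G
  have hR' : R' = 0 := by
    apply Polynomial.eq_zero_of_infinite_isRoot
    refine (Set.infinite_of_finite_compl (s := {0}ᶜ) (by simp)).mono fun t ht => ?_
    have ht' : t ≠ 0 := ht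
    have h2 := hR1 t⁻¹
    rw [hR, Polynomial.eval_zero] at h2
    have h3 : t • q + x = t • (t⁻¹ • x + q) := by
      rw [smul_add, smul_smul, mul_inv_cancel₀ ht', one_smul]
      exact add_comm _ _
    change R'.eval t = 0
    rw [hR1', h3, eval_smul_hom hG, ← h2, mul_zero]
  have h4 := hR1' 0
  rw [hR', Polynomial.eval_zero, zero_smul, zero_add] at h4
  exact h4.symm

/-- the family of curves when the special set is everything -/
theorem fam_of_gm [Fintype κ] {F : ι → MvPolynomial (Fin (n + 1)) ℂ}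
    {Q : κ → MvPolynomial (Fin (n + 1)) ℂ} (hF : ∀ i, Stab (F i))
    (hQ : ∀ j, ∃ d, StabLog (Q j) d) {K : Type} [Field K] [Algebra ℂ K] {w : ℕ}
    {y : Fin (n + 1) → K} (hy : SubVarQ F Q K w y) (hg : GenericQ F Q y)
    (heq : gmPoints F Q = Pts F Q) :
    ∃ (M : Type) (_ : Field M) (_ : Algebra ℂ M) (m : ℕ) (W : Fin (n + 1) → Polynomial M) (l : ℕ),
      Algebra.trdeg ℂ M = m ∧ Fam y (∏ j, Q j) W l ∧ ∃ r, ¬ Flat ℂ y W r := by
  refine exists_fam (fun i => (hF i).hom) (fun j => hom_deg (hQ j)) hy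
    (fun G hG hG0 x hx => ?_) (fun x hx => gm_line F Q hF hQ ?_)
  · rw [← eval_eq_val]
    exact hg G hG hG0 x (pts_iff.1 hx)
  · rw [heq]
    exact pts_iff.1 hx

/-- **Log general type implies hyperbolicity.** -/
theorem ne_of_lgt [Finite κ] {F : ι → MvPolynomial (Fin (n + 1)) ℂ}
    {Q : κ → MvPolynomial (Fin (n + 1)) ℂ} (hF : ∀ i, Stab (F i))
    (hQ : ∀ j, ∃ d, StabLog (Q j) d) {K : Type} [Field K] [Algebra ℂ K] {w : ℕ}
    {y : Fin (n + 1) → K} (hy : SubVarQ F Q K w y) (hg : GenericQ F Q y)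
    (h : LogGeneralType ℂ K w (OffAny Q y)) : gmPoints F Q ≠ Pts F Q := by
  classical
  have := Fintype.ofFinite κ
  intro heq
  obtain ⟨M, _, _, m, W, l, hm, hFam, r, hr⟩ := fam_of_gm hF hQ hy hg heq
  have hprod : (∏ j, Q j).IsHomogeneous (∑ j, (Q j).totalDegree) :=
    IsHomogeneous.prod _ _ _ fun j _ => hom_deg (hQ j)
  exact hr ((hFam.main hy.dim hm hy.ne hy.gen hprod).2.2.1
    (lgt_mono (fun P hP => off_of_any (fun j => hom_deg (hQ j)) hy.off hP) h) r)

/-- **Projective varieties of nonnegative Kodaira dimension.** -/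
theorem ne_of_pluri [IsEmpty κ] {F : ι → MvPolynomial (Fin (n + 1)) ℂ}
    {Q : κ → MvPolynomial (Fin (n + 1)) ℂ} (hF : ∀ i, Stab (F i))
    {K : Type} [Field K] [Algebra ℂ K] {w : ℕ}
    {y : Fin (n + 1) → K} (hy : SubVarQ F Q K w y) (hg : GenericQ F Q y)
    {N : ℕ} (hN : 0 < N) {ω : (Fin w → Derivation ℂ K K) → K}
    (h : LogSec ℂ K w N (OffAny Q y) ω) {D : Fin w → Derivation ℂ K K} (hD : ω D ≠ 0) :
    gmPoints F Q ≠ Pts F Q := by
  classical
  intro heq
  have hQ : ∀ j, ∃ d, StabLog (Q j) d := fun j => isEmptyElim j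
  have := Fintype.ofIsEmpty (α := κ)
  obtain ⟨M, _, _, m, W, l, hm, hFam, r, hr⟩ := fam_of_gm hF hQ hy hg heq
  have hQ1 : (∏ j, Q j) = 1 := Finset.prod_of_isEmpty _
  have hl : l = 0 := by
    obtain ⟨c, hc, h1⟩ := hFam.bd
    rw [hQ1, map_one] at h1
    have h2 := congrArg Polynomial.natDegree h1
    rw [Polynomial.natDegree_one, Polynomial.natDegree_C_mul_X_pow l c hc] at h2
    exact h2.symm
  have hprod : (∏ j, Q j).IsHomogeneous 0 := by
    rw [hQ1]
    exact isHomogeneous_one _ _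
  refine hD ((hFam.main hy.dim hm hy.ne hy.gen hprod).2.2.2 hl ⟨r, hr⟩ N hN ω
    ⟨h.1, h.2.1, fun P hP _ => h.2.2 P hP ?_⟩ D)
  rintro ⟨j, -⟩
  exact isEmptyElim j

end Pool.Agent.TH710.NW
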