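import Pool.Agent.TH143.GT.Fin
import Pool.Agent.W603.GY.GGL

/-!
Quasi-projective varieties covered by punctured lines: the family of rational curves.
-/

set_option autoImplicit false

open FF MvPolynomial Pool.Agent.W603.LV Pool.Agent.W603.PV Pool.Agent.W603.GR
  Pool.Agent.W602.GT Pool.Agent.H159R3.War Pool.Agent.H159R3.WarLog Pool.Agent.W603.BPR
  Pool.Agent.W603.BP Pool.Agent.W603.BPW Pool.Agent.W603.GW Pool.Agent.W603.GX
  Pool.Agent.W603.GY Pool.Agent.TH143.GT

namespace Pool.Agent.TH710.NW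

variable {n : ℕ} {ι κ : Type}

theorem ev_aeval {M : Type} [Field M] [Algebra ℂ M] (W : Fin (n + 1) → Polynomial M)
    (G : MvPolynomial (Fin (n + 1)) ℂ) (c : M) :
    Polynomial.eval c (aeval W G : Polynomial M)
      = Pool.Agent.W602.GT.val (fun t => (W t).eval c) G := by
  have h := MvPolynomial.comp_aeval_apply (f := W)
    ((Polynomial.aeval c : Polynomial M →ₐ[M] M).restrictScalars ℂ) G
  unfold Pool.Agent.W602.GT.val
  simpa [Polynomial.coe_aeval_eq_eval] using h

theorem poly_zero_of_const {M : Type} [Field M] [Algebra ℂ M] {p : Polynomial M}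
    (h : ∀ c : ℂ, p.eval (algebraMap ℂ M c) = 0) : p = 0 := by
  apply Polynomial.eq_zero_of_infinite_isRoot
  exact Set.infinite_of_injective_forall_mem (algebraMap ℂ M).injective h

theorem poly_zero_of_ne {M : Type} [Field M] [Algebra ℂ M] {p : Polynomial M}
    (h : ∀ c : M, c ≠ 0 → p.eval c = 0) : p = 0 := by
  have h1 : p * Polynomial.X = 0 := by
    apply poly_zero_of_const
    intro c
    rw [Polynomial.eval_mul, Polynomial.eval_X]
    by_cases hc : algebraMap ℂ M c = 0
    · rw [hc, mul_zero]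
    · rw [h _ hc, zero_mul]
  exact (mul_eq_zero.1 h1).resolve_right Polynomial.X_ne_zero

theorem off_of_any [Fintype κ] {Q : κ → MvPolynomial (Fin (n + 1)) ℂ} {K : Type} [Field K]
    [Algebra ℂ K] {y : Fin (n + 1) → K} (hQh : ∀ j, (Q j).IsHomogeneous (Q j).totalDegree)
    (hQ0 : ∀ j, Pool.Agent.W602.GT.val y (Q j) ≠ 0) {P : Place ℂ K} (h : OffAny Q y P) :
    OffQ (∏ j, Q j) (∑ j, (Q j).totalDegree) y P := by
  classical
  obtain ⟨j0, i1, hi1, hj0⟩ := h
  obtain ⟨i0, hi0, hmin⟩ := Finset.exists_min_image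
    (Finset.univ.filter fun i => y i ≠ 0) (fun i => P.ord (y i))
    ⟨i1, Finset.mem_filter.2 ⟨Finset.mem_univ _, hi1⟩⟩
  have hi0' : y i0 ≠ 0 := (Finset.mem_filter.1 hi0).2
  have hmin' : ∀ i, y i ≠ 0 → P.ord (y i0) ≤ P.ord (y i) := fun i hi =>
    hmin i (Finset.mem_filter.2 ⟨Finset.mem_univ _, hi⟩)
  refine ⟨i0, hi0', ?_⟩
  rw [val_prod, ord_prod' P _ _ fun j _ => hQ0 j, Nat.cast_sum, Finset.sum_mul]
  refine Finset.sum_lt_sum (fun j _ => ord_form P hi0' hmin' (hQh j) (hQ0 j))
    ⟨j0, Finset.mem_univ _, ?_⟩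
  exact lt_of_le_of_lt (mul_le_mul_of_nonneg_left (hmin' i1 hi1) (Int.natCast_nonneg _)) hj0

theorem lgt_mono {K : Type} [Field K] [Algebra ℂ K] {w : ℕ} {B B' : Place ℂ K → Prop}
    (hB : ∀ P, B P → B' P) (h : LogGeneralType ℂ K w B) : LogGeneralType ℂ K w B' := by
  obtain ⟨h1, N, hN, ω, h2, h3, h4, h5⟩ := h
  exact ⟨h1, N, hN, ω, h2, h3, fun P hP hb => h4 P hP fun hb' => hb (hB P hb'), h5⟩

/-- The rational curves of a variety covered by punctured lines form a family. -/
theorem exists_fam [Fintype κ] {F : ι → MvPolynomial (Fin (n + 1)) ℂ}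
    {Q : κ → MvPolynomial (Fin (n + 1)) ℂ} (hFh : ∀ i, ∃ d, (F i).IsHomogeneous d)
    (hQh : ∀ j, (Q j).IsHomogeneous (Q j).totalDegree)
    {K : Type} [Field K] [Algebra ℂ K] {w : ℕ} {y : Fin (n + 1) → K} (hy : SubVarQ F Q K w y)
    (hgenr : ∀ G : MvPolynomial (Fin (n + 1)) ℂ, IsForm G → Pool.Agent.W602.GT.val y G = 0 →
      ∀ x ∈ PtsQ F Q, Pool.Agent.W602.GT.val x G = 0)
    (hlines : ∀ x ∈ PtsQ F Q, ∃ (v : Fin (n + 1) → ℂ) (m : κ → ℂ),
      (∃ i j, x i * v j - x j * v i ≠ 0) ∧
      (∀ (c : ℂ) (i : ι), Pool.Agent.W602.GT.val (fun t => x t + c * v t) (F i) = 0) ∧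
      (∀ (c : ℂ) (j : κ), Pool.Agent.W602.GT.val (fun t => x t + c * v t) (Q j) =
        Pool.Agent.W602.GT.val x (Q j) * (1 + c * m j) ^ (Q j).totalDegree) ∧
      ∀ j j', m j * m j' * (m j - m j') = 0) :
    ∃ (M : Type) (_ : Field M) (_ : Algebra ℂ M) (m : ℕ) (W : Fin (n + 1) → Polynomial M) (l : ℕ),
      Algebra.trdeg ℂ M = m ∧ Fam y (∏ j, Q j) W l ∧ ∃ r, ¬ Flat ℂ y W r := by
  classical
  have hQf : ∀ j, IsForm (Q j) := fun j => ⟨_, hQh j⟩
  -- the generic line
  let S : Set (MvPolynomial ((Fin (n + 1) ⊕ Fin (n + 1)) ⊕ κ) ℂ) :=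
    {f | (∃ (c : ℂ) (i : ι), f = cmb κ 1 c (F i)) ∨
      (∃ (c : ℂ) (j : κ), f = cmb κ 1 c (Q j) -
        cmb κ 1 0 (Q j) * (1 + C c * X (Sum.inr j)) ^ (Q j).totalDegree) ∨
      ∃ j j' : κ, f = X (Sum.inr j) * X (Sum.inr j') * (X (Sum.inr j) - X (Sum.inr j'))}
  have hprodQ : ∀ {L : Type} [Field L] [Algebra ℂ L] (x : Fin (n + 1) → L),
      Pool.Agent.W602.GT.val x (∏ j, Q j) = ∏ j, Pool.Agent.W602.GT.val x (Q j) :=
    fun x => val_prod x _ _
  obtain ⟨M, _, _, Y, V, m, ⟨ia, ja, hij⟩, hS, hspec⟩ := generic_line hy.ne S (∏ j, Q j)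
    (by rw [hprodQ]; exact Finset.prod_ne_zero_iff.2 fun j _ => hy.off j) (by
    intro x hx hxQ hrel
    rw [hprodQ] at hxQ
    have hxP : x ∈ PtsQ F Q := ⟨hx, fun i => hrel _ (hy.mem i), fun j =>
      Finset.prod_ne_zero_iff.1 hxQ j (Finset.mem_univ j)⟩
    obtain ⟨v, m, h1, h2, h3, h4⟩ := hlines x hxP
    refine ⟨v, m, h1, ?_⟩
    rintro f (⟨c, i, rfl⟩ | ⟨c, j, rfl⟩ | ⟨j, j', rfl⟩)
    · rw [cmb_val]
      simp only [map_one, one_mul, Algebra.algebraMap_self, RingHom.id_apply]
      exact h2 c i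
    · rw [map_sub, map_mul, cmb_val, cmb_val10]
      simp only [map_one, one_mul, Algebra.algebraMap_self, RingHom.id_apply, map_pow, map_add,
        map_mul, aeval_C, aeval_X, Sum.elim_inr]
      rw [h3, sub_self]
    · simp only [map_mul, map_sub, aeval_X, Sum.elim_inr]
      exact h4 j j')
  have hM : CharZero M := charZero_of_injective_algebraMap (algebraMap ℂ M).injective
  have hS1 : ∀ (c : ℂ) (i : ι),
      Pool.Agent.W602.GT.val (fun t => Y t + algebraMap ℂ M c * V t) (F i) = 0 := by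
    intro c i
    have h1 := hS _ (Or.inl ⟨c, i, rfl⟩)
    rw [cmb_val] at h1
    simpa only [map_one, one_mul] using h1
  have hS2 : ∀ (c : ℂ) (j : κ),
      Pool.Agent.W602.GT.val (fun t => Y t + algebraMap ℂ M c * V t) (Q j) =
      Pool.Agent.W602.GT.val Y (Q j) * (1 + algebraMap ℂ M c * m j) ^ (Q j).totalDegree := by
    intro c j
    have h1 := hS _ (Or.inr (Or.inl ⟨c, j, rfl⟩))
    rw [map_sub, map_mul, cmb_val, cmb_val10, sub_eq_zero] at h1
    simpa only [map_one, one_mul, map_pow, map_add, map_mul, aeval_C, aeval_X,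
      Sum.elim_inr] using h1
  have hS3 : ∀ j j', m j * m j' * (m j - m j') = 0 := by
    intro j j'
    have h1 := hS _ (Or.inr (Or.inr ⟨j, j', rfl⟩))
    simpa only [map_mul, map_sub, aeval_X, Sum.elim_inr] using h1
  have hYQ : ∀ j, Pool.Agent.W602.GT.val Y (Q j) ≠ 0 := fun j h0 => hy.off j (hspec _ h0)
  -- the identities for all constants
  have hT1 : ∀ (c : M) (i : ι), Pool.Agent.W602.GT.val (fun t => Y t + c * V t) (F i) = 0 := by
    intro c i
    have h1 : (aeval (fun t => Polynomial.C (Y t) + Polynomial.X * Polynomial.C (V t)) (F i) :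
        Polynomial M) = 0 := by
      apply poly_zero_of_const
      intro c
      rw [ev_aeval]
      simp only [Polynomial.eval_add, Polynomial.eval_mul, Polynomial.eval_C, Polynomial.eval_X]
      exact hS1 c i
    have h2 := congrArg (Polynomial.eval c) h1
    rw [ev_aeval, Polynomial.eval_zero] at h2
    simpa only [Polynomial.eval_add, Polynomial.eval_mul, Polynomial.eval_C,
      Polynomial.eval_X] using h2
  have hT2 : ∀ (c : M) (j : κ), Pool.Agent.W602.GT.val (fun t => Y t + c * V t) (Q j) =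
      Pool.Agent.W602.GT.val Y (Q j) * (1 + c * m j) ^ (Q j).totalDegree := by
    intro c j
    have h1 : (aeval (fun t => Polynomial.C (Y t) + Polynomial.X * Polynomial.C (V t)) (Q j) :
        Polynomial M) - Polynomial.C (Pool.Agent.W602.GT.val Y (Q j)) *
          (1 + Polynomial.X * Polynomial.C (m j)) ^ (Q j).totalDegree = 0 := by
      apply poly_zero_of_const
      intro c
      rw [Polynomial.eval_sub, ev_aeval]
      simp only [Polynomial.eval_add, Polynomial.eval_mul, Polynomial.eval_C, Polynomial.eval_X,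
        Polynomial.eval_pow, Polynomial.eval_one]
      rw [hS2 c j, sub_self]
    have h2 := congrArg (Polynomial.eval c) h1
    rw [Polynomial.eval_sub, ev_aeval, Polynomial.eval_zero, sub_eq_zero] at h2
    simpa only [Polynomial.eval_add, Polynomial.eval_mul, Polynomial.eval_C,
      Polynomial.eval_X, Polynomial.eval_pow, Polynomial.eval_one] using h2
  -- the parameter
  obtain ⟨u, hu0, hu⟩ : ∃ u : M, u ≠ 0 ∧ ∀ j, m j = 0 ∨ m j = u := by
    by_cases hall : ∀ j, m j = 0
    · exact ⟨1, one_ne_zero, fun j => Or.inl (hall j)⟩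
    · push Not at hall
      obtain ⟨j1, hj1⟩ := hall
      refine ⟨m j1, hj1, fun j => ?_⟩
      rcases mul_eq_zero.1 (hS3 j j1) with h | h
      · rcases mul_eq_zero.1 h with h | h
        · exact Or.inl h
        · exact absurd h hj1
      · exact Or.inr (sub_eq_zero.1 h)
  let W : Fin (n + 1) → Polynomial M := fun t =>
    Polynomial.X * Polynomial.C (Y t) + (1 - Polynomial.X) * Polynomial.C (V t / u)
  have hWev : ∀ (c : M) (t : Fin (n + 1)), (W t).eval c = c * Y t + (1 - c) * (V t / u) := by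
    intro c t
    simp only [W, Polynomial.eval_add, Polynomial.eval_mul, Polynomial.eval_C, Polynomial.eval_X,
      Polynomial.eval_sub, Polynomial.eval_one]
  have hWc : ∀ (c : M), c ≠ 0 → (fun t => (W t).eval c)
      = fun t => c * (Y t + ((1 - c) / (c * u)) * V t) := by
    intro c hc
    funext t
    rw [hWev]
    field_simp
  have hW1 : (fun t => (W t).eval 1) = Y := by
    funext t
    rw [hWev, sub_self, zero_mul, add_zero, one_mul]
  have hWF : ∀ i, (aeval W (F i) : Polynomial M) = 0 := by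
    intro i
    apply poly_zero_of_ne
    intro c hc
    obtain ⟨d, hd⟩ := hFh i
    rw [ev_aeval, hWc c hc, Pool.Agent.W602.GT.val_smul hd, hT1, mul_zero]
  let e : κ → ℕ := fun j => if m j = 0 then (Q j).totalDegree else 0
  have hWQ : ∀ j, (aeval W (Q j) : Polynomial M) =
      Polynomial.C (Pool.Agent.W602.GT.val Y (Q j)) * Polynomial.X ^ e j := by
    intro j
    rw [← sub_eq_zero]
    apply poly_zero_of_ne
    intro c hc
    rw [Polynomial.eval_sub, ev_aeval, hWc c hc, Pool.Agent.W602.GT.val_smul (hQh j), hT2]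
    simp only [Polynomial.eval_mul, Polynomial.eval_C, Polynomial.eval_pow, Polynomial.eval_X]
    rw [sub_eq_zero]
    have h1 : c ^ (Q j).totalDegree * (Pool.Agent.W602.GT.val Y (Q j) *
        (1 + (1 - c) / (c * u) * m j) ^ (Q j).totalDegree) =
        Pool.Agent.W602.GT.val Y (Q j) *
          (c * (1 + (1 - c) / (c * u) * m j)) ^ (Q j).totalDegree := by
      rw [mul_pow]
      ring
    rw [h1]
    congr 1
    simp only [e]
    by_cases h0 : m j = 0
    · rw [if_pos h0, h0, mul_zero, add_zero, mul_one]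
    · rw [if_neg h0, pow_zero]
      have h2 := (hu j).resolve_left h0
      have h3 : c * (1 + (1 - c) / (c * u) * m j) = 1 := by
        rw [h2]
        field_simp
        ring
      rw [h3, one_pow]
  have hWQp : (aeval W (∏ j, Q j) : Polynomial M) =
      Polynomial.C (∏ j, Pool.Agent.W602.GT.val Y (Q j)) * Polynomial.X ^ (∑ j, e j) := by
    rw [map_prod, map_prod, ← Finset.prod_pow_eq_pow_sum, ← Finset.prod_mul_distrib]
    exact Finset.prod_congr rfl fun j _ => hWQ j
  -- genericity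
  have hcomp : IsComponentQ F Q y := ⟨1, ⟨0, isHomogeneous_one _ _⟩, by
    unfold Pool.Agent.W602.GT.val
    rw [map_one]
    exact one_ne_zero, fun x hx _ => ⟨hx.1, fun G hG hG0 => hgenr G hG hG0 x hx⟩⟩
  have hrelW : ∀ G : MvPolynomial (Fin (n + 1)) ℂ, IsForm G →
      (Pool.Agent.W602.GT.val y G = 0 ↔ (aeval W G : Polynomial M) = 0) := by
    have hsp : ∀ G : MvPolynomial (Fin (n + 1)) ℂ, IsForm G → (aeval W G : Polynomial M) = 0 →
        Pool.Agent.W602.GT.val y G = 0 := by
      intro G _ h0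
      apply hspec
      have h1 := ev_aeval W G 1
      rw [h0, Polynomial.eval_zero, hW1] at h1
      exact h1.symm
    intro G hG
    have h1 := same_relQ (y' := fun j => rf (W j)) hcomp (by
        obtain ⟨i0, hi0'⟩ := Function.ne_iff.1 hy.ne
        have hi0 : y i0 ≠ 0 := hi0'
        intro h0
        apply hi0
        have h2 : rf (W i0) = 0 := congrFun h0 i0
        rw [rf_zero] at h2
        have h3 := hsp (X i0) ⟨1, isHomogeneous_X _ _⟩ (by rw [aeval_X]; exact h2)
        unfold Pool.Agent.W602.GT.val at h3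
        rwa [aeval_X] at h3)
      (fun i => by rw [val_rf, hWF, rf_zero]) hy.off hQf
      (fun G hG h0 => hsp G hG (by rwa [val_rf, rf_zero] at h0)) G hG
    rw [h1, val_rf, rf_zero]
  -- the curves are not constant
  have hder : Polynomial.derivative (aeval W (X ia : MvPolynomial (Fin (n + 1)) ℂ) : Polynomial M) *
      aeval W (X ja : MvPolynomial (Fin (n + 1)) ℂ) ≠
      aeval W (X ia : MvPolynomial (Fin (n + 1)) ℂ) *
        Polynomial.derivative (aeval W (X ja : MvPolynomial (Fin (n + 1)) ℂ) : Polynomial M) := by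
    rw [aeval_X, aeval_X]
    intro h0
    have hd : ∀ t, Polynomial.derivative (W t) = Polynomial.C (Y t) - Polynomial.C (V t / u) := by
      intro t
      simp only [W, Polynomial.derivative_add, Polynomial.derivative_mul, Polynomial.derivative_X,
        Polynomial.derivative_C, Polynomial.derivative_sub, Polynomial.derivative_one]
      ring
    have h1 := congrArg (Polynomial.eval 1) h0
    rw [hd, hd, Polynomial.eval_mul, Polynomial.eval_mul, hWev, hWev] at h1
    simp only [Polynomial.eval_sub, Polynomial.eval_C, one_mul, sub_self, zero_mul,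
      add_zero] at h1
    apply hij
    field_simp at h1
    linear_combination h1
  obtain ⟨M', _, _, m', hm', W', hW', ⟨c, l, hc, hQW'⟩, hder'⟩ := desc W (X ja) (X ia) (∏ j, Q j)
    ⟨1, ∏ j, Pool.Agent.W602.GT.val Y (Q j), ∑ j, e j,
      Finset.prod_ne_zero_iff.2 fun j _ => hYQ j, by rw [mul_one, hWQp]⟩ hder
  have hrel' : ∀ G : MvPolynomial (Fin (n + 1)) ℂ, IsForm G →
      (Pool.Agent.W602.GT.val y G = 0 ↔ (aeval W' G : Polynomial M') = 0) :=
    fun G hG => (hrelW G hG).trans (hW' G).symm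
  refine ⟨M', inferInstance, inferInstance, m', W', l, hm', ⟨hrel', c, hc, hQW'⟩,
    Pool.Agent.W602.GT.val y (X ia : MvPolynomial (Fin (n + 1)) ℂ) /
      Pool.Agent.W602.GT.val y (X ja : MvPolynomial (Fin (n + 1)) ℂ), fun hfl => ?_⟩
  have hja : Pool.Agent.W602.GT.val y (X ja : MvPolynomial (Fin (n + 1)) ℂ) ≠ 0 := by
    intro h0
    apply hder'
    have h1 := (hrel' _ ⟨1, isHomogeneous_X _ _⟩).1 h0
    rw [h1, mul_zero, Polynomial.derivative_zero, mul_zero]
  exact hder' (hfl 1 (X ia) (X ja) (isHomogeneous_X _ _) (isHomogeneous_X _ _) hja rfl)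

end Pool.Agent.TH710.NW
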