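import Pool.Agent.TH710.NW.Mono

/-!
Projective varieties given by towers over monomials: torus curves and pseudo-Brody hyperbolicity.
-/

set_option autoImplicit false

namespace Pool.Agent.TH710.NW

open MvPolynomial Pool.Agent.H159R3.NV Pool.Agent.H159R3.Toric Pool.Agent.H159R3.GGL
open Pool.Agent.H159R3
open scoped Topology

variable {n : ℕ} {ι : Type}

/-- the generic point of an entire curve in projective space, and a one-parameter group -/
theorem exists_group (f : ℂ → Fin (n + 1) → ℂ) (hfd0 : Differentiable ℂ f) (hf0 : ∀ z, f z ≠ 0)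
    (hnc : ∃ z w, ∀ c : ℂ, f z ≠ c • f w) (G : MvPolynomial (Fin (n + 1)) ℂ) (z1 : ℂ)
    (hG : eval (f z1) G ≠ 0) :
    ∃ (z0 : ℂ) (b : Fin (n + 1) → ℤ) (j k : Fin (n + 1)), f z0 j ≠ 0 ∧ f z0 k ≠ 0 ∧ b j ≠ b k ∧
      eval (f z0) G ≠ 0 ∧ ∀ q : Fin (n + 1) → ℤ,
        ∑ j, (q j : ℂ) * (deriv (fun z => f z j) z0 / f z0 j) = 0 → ∑ j, q j * b j = 0 := by
  classical
  obtain ⟨w1, w2, hw12⟩ := hnc
  have hfj : ∀ j, Differentiable ℂ (fun z => f z j) := fun j => by
    rw [differentiable_pi] at hfd0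
    exact hfd0 j
  have hfd : ∀ j, Differentiable ℂ (deriv (fun z => f z j)) := fun j =>
    ((hfj j).contDiff (n := 2)).differentiable_deriv_two
  -- a pair of non-proportional coordinates
  have hpair : ∃ j k, ∃ z, f z j * deriv (fun z => f z k) z - f z k * deriv (fun z => f z j) z ≠ 0 := by
    by_contra hcon
    push Not at hcon
    obtain ⟨k, hk⟩ := Function.ne_iff.mp (hf0 0)
    have hk' : f 0 k ≠ 0 := hk
    have hc : ∀ j, ∃ c : ℂ, ∀ z, f z j = c * f z k := fun j =>
      Lang.proportional (hfj j) (hfj k) ⟨0, hk'⟩ (fun z => hcon k j z)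
    choose c hc using hc
    have hfk : ∀ z, f z k ≠ 0 := by
      intro z h0
      apply hf0 z
      funext j
      rw [hc j z, h0, mul_zero]
      rfl
    apply hw12 (f w1 k / f w2 k)
    funext j
    rw [Pi.smul_apply, smul_eq_mul, hc j w1, hc j w2]
    have := hfk w2
    field_simp
  obtain ⟨j1, k1, zw, hzw⟩ := hpair
  have hwd : Differentiable ℂ (fun z => f z j1 * deriv (fun z => f z k1) z
      - f z k1 * deriv (fun z => f z j1) z) :=
    ((hfj j1).mul (hfd k1)).sub ((hfj k1).mul (hfd j1))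
  have hGd : Differentiable ℂ (fun z => eval (f z) G) := by
    have : (fun z => eval (f z) G) = fun z => ∑ α ∈ G.support, G.coeff α * ∏ j, f z j ^ α j := by
      funext z
      rw [eval_eq']
    rw [this]
    apply Differentiable.fun_sum
    intro α _
    apply Differentiable.const_mul
    apply Differentiable.fun_finset_prod
    intro j _
    exact (hfj j).pow _
  have hev : ∀ᶠ z in 𝓝[≠] (0 : ℂ), (∀ j, (∃ z, f z j ≠ 0) → f z j ≠ 0) ∧
      f z j1 * deriv (fun z => f z k1) z - f z k1 * deriv (fun z => f z j1) z ≠ 0 ∧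
      eval (f z) G ≠ 0 := by
    refine Filter.Eventually.and ?_ (Filter.Eventually.and (ev_ne hwd hzw 0) (ev_ne hGd hG 0))
    rw [Filter.eventually_all]
    intro j
    by_cases hj : ∃ z, f z j ≠ 0
    · obtain ⟨z, hz⟩ := hj
      filter_upwards [ev_ne (hfj j) hz 0] with w hw _
      exact hw
    · exact Filter.Eventually.of_forall fun w hw => absurd hw hj
  obtain ⟨z0, hz0, hz0w, hz0G⟩ := hev.exists
  have hj1 : f z0 j1 ≠ 0 := by
    apply hz0
    by_contra hcon
    push Not at hcon
    apply hz0w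
    have h1 : (fun z => f z j1) = fun _ => 0 := funext hcon
    rw [hcon z0, h1]
    simp
  have hk1 : f z0 k1 ≠ 0 := by
    apply hz0
    by_contra hcon
    push Not at hcon
    apply hz0w
    have h1 : (fun z => f z k1) = fun _ => 0 := funext hcon
    rw [hcon z0, h1]
    simp
  set u : Fin (n + 1) → ℂ := fun j => deriv (fun z => f z j) z0 / f z0 j with hu
  have hune : ∑ j, (((Pi.single k1 1 - Pi.single j1 1 : Fin (n + 1) → ℤ) j : ℤ) : ℂ) * u j ≠ 0 := by
    have h1 : ∑ j, (((Pi.single k1 1 - Pi.single j1 1 : Fin (n + 1) → ℤ) j : ℤ) : ℂ) * u j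
        = u k1 - u j1 := by
      simp only [Pi.sub_apply, Int.cast_sub, sub_mul]
      rw [Finset.sum_sub_distrib]
      congr 1
      · rw [Finset.sum_eq_single k1]
        · simp
        · intro j _ hj
          simp [hj]
        · simp
      · rw [Finset.sum_eq_single j1]
        · simp
        · intro j _ hj
          simp [hj]
        · simp
    rw [h1]
    intro h0
    apply hz0w
    simp only [hu] at h0
    rw [div_sub_div _ _ hk1 hj1, div_eq_zero_iff] at h0
    rcases h0 with h0 | h0
    · linear_combination h0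
    · exact absurd h0 (mul_ne_zero hk1 hj1)
  obtain ⟨b, hb, hbp⟩ := exists_b u _ hune
  have hbjk : b k1 ≠ b j1 := by
    intro h0
    apply hbp
    simp only [Pi.sub_apply, sub_mul]
    rw [Finset.sum_sub_distrib, Finset.sum_eq_single k1, Finset.sum_eq_single j1]
    · simp [h0]
    · intro j _ hj; simp [hj]
    · simp
    · intro j _ hj; simp [hj]
    · simp
  exact ⟨z0, b, k1, j1, hk1, hj1, hbjk, hz0G, hb⟩

/-- Analytic part: an entire curve yields a one-parameter group. -/
theorem curveM (F : ι → MvPolynomial (Fin (n + 1)) ℂ) (hC : ∀ i, TowerM (F i))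
    (f : ℂ → Fin (n + 1) → ℂ) (hf : EntireCurve F f) (G : MvPolynomial (Fin (n + 1)) ℂ) (z1 : ℂ)
    (hG : eval (f z1) G ≠ 0) :
    ∃ (z0 : ℂ) (b : Fin (n + 1) → ℤ) (j k : Fin (n + 1)), f z0 j ≠ 0 ∧ f z0 k ≠ 0 ∧ b j ≠ b k ∧
      eval (f z0) G ≠ 0 ∧ ∀ i (t : ℂ), t ≠ 0 → eval (fun j => f z0 j * t ^ b j) (F i) = 0 := by
  obtain ⟨hfd0, hfX, hnc⟩ := hf
  obtain ⟨z0, b, j, k, h1, h2, h3, h4, h5⟩ := exists_group f hfd0 (fun z => (hfX z).1) hnc G z1 hG
  refine ⟨z0, b, j, k, h1, h2, h3, h4, fun i t ht => ?_⟩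
  exact towerM_spec (fun j z => f z j) z0 b t (hC i) (fun j => by
    rw [differentiable_pi] at hfd0
    exact hfd0 j) h5 ht (fun z => (hfX z).2 i)

/-- If `F` vanishes on a torus orbit then its graded pieces vanish. -/
theorem graded_zero {m : ℕ} (F : MvPolynomial (Fin m) ℂ) (x : Fin m → ℂ) (b : Fin m → ℤ)
    (h : ∀ t : ℂ, t ≠ 0 → eval (fun j => x j * t ^ b j) F = 0) (v : ℤ) :
    ∑ α ∈ F.support.filter (fun α => ∑ j, (α j : ℤ) * b j = v), F.coeff α * ∏ j, x j ^ α j = 0 := by
  classical
  set c : ℤ := ∑ α ∈ F.support, |∑ j, (α j : ℤ) * b j| with hc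
  have hcpos : ∀ α ∈ F.support, 0 ≤ (∑ j, (α j : ℤ) * b j) + c := by
    intro α hα
    have h1 : |∑ j, (α j : ℤ) * b j| ≤ c := Finset.single_le_sum
      (f := fun α : Fin m →₀ ℕ => |∑ j, (α j : ℤ) * b j|) (fun i _ => abs_nonneg _) hα
    have h2 := neg_abs_le (∑ j, (α j : ℤ) * b j)
    linarith
  let g : Polynomial ℂ := ∑ α ∈ F.support, Polynomial.C (F.coeff α * ∏ j, x j ^ α j) *
    Polynomial.X ^ ((∑ j, (α j : ℤ) * b j) + c).toNat
  have hg : ∀ t : ℂ, t ≠ 0 → g.eval t = 0 := by
    intro t ht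
    have h0 : g.eval t = t ^ c * eval (fun j => x j * t ^ b j) F := by
      have h1 := BLV.eval_laurent (RingHom.id ℂ) F x b t ht
      rw [show eval₂ (RingHom.id ℂ) (fun j => x j * t ^ b j) F
        = eval (fun j => x j * t ^ b j) F from rfl] at h1
      rw [h1, Finset.mul_sum]
      simp only [g]
      rw [Polynomial.eval_finsetSum]
      refine Finset.sum_congr rfl fun α hα => ?_
      rw [Polynomial.eval_mul, Polynomial.eval_C, Polynomial.eval_pow, Polynomial.eval_X]
      have h1 : t ^ ((∑ j, (α j : ℤ) * b j) + c).toNat = t ^ c * t ^ (∑ j, (α j : ℤ) * b j) := by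
        rw [← zpow_natCast, Int.toNat_of_nonneg (hcpos α hα), zpow_add₀ ht]
        ring
      rw [h1]
      simp only [RingHom.id_apply]
      ring
    rw [h0, h t ht, mul_zero]
  have hg0 : g = 0 := by
    apply Polynomial.eq_zero_of_infinite_isRoot
    refine (Set.infinite_of_finite_compl (s := {0}ᶜ) (by simp)).mono fun t ht => ?_
    exact hg t ht
  by_cases hv : 0 ≤ v + c
  · have h1 := congrArg (fun p => Polynomial.coeff p (v + c).toNat) hg0
    simp only [g, Polynomial.finsetSum_coeff, Polynomial.coeff_C_mul_X_pow,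
      Polynomial.coeff_zero] at h1
    rw [← h1, Finset.sum_filter]
    refine Finset.sum_congr rfl fun α hα => ?_
    have h2 := hcpos α hα
    by_cases h3 : ∑ j, (α j : ℤ) * b j = v
    · rw [if_pos h3, if_pos (by rw [h3])]
    · rw [if_neg h3, if_neg]
      intro h4
      apply h3
      have h5 : ((v + c).toNat : ℤ) = (((∑ j, (α j : ℤ) * b j) + c).toNat : ℤ) := by rw [h4]
      rw [Int.toNat_of_nonneg hv, Int.toNat_of_nonneg h2] at h5
      linarith
  · rw [Finset.filter_eq_empty_iff.2, Finset.sum_empty]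
    intro α hα h3
    apply hv
    rw [← h3]
    exact hcpos α hα

/-- Classification of the pseudo-Brody hyperbolic varieties given by towers over monomials. -/
theorem mainM [Finite ι] (F : ι → MvPolynomial (Fin (n + 1)) ℂ)
    (hF : ∀ i, ∃ d, (F i).IsHomogeneous d) (hC : ∀ i, TowerM (F i)) (hirr : Irred F) :
    PseudoBrody F ↔ ∀ b : Fin (n + 1) → ℤ, Preserves b F → ActsTrivially b F := by
  classical
  have := Fintype.ofFinite ι
  constructor
  · rintro ⟨G, -, ⟨x1, hx1, hx1G⟩, hG⟩ b hb
    by_contra hnt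
    unfold ActsTrivially at hnt
    push Not at hnt
    obtain ⟨x0, hx0, t0, ht0, hnt⟩ := hnt
    -- coordinates with different weights
    have hjk : ∃ j k, x0 j ≠ 0 ∧ x0 k ≠ 0 ∧ b j ≠ b k := by
      by_contra hcon
      push Not at hcon
      obtain ⟨k, hk⟩ := Function.ne_iff.mp hx0.1
      apply hnt (t0 ^ b k)
      funext j
      rw [Pi.smul_apply, smul_eq_mul]
      by_cases hj : x0 j = 0
      · rw [hj, zero_mul, mul_zero]
      · rw [hcon j k hj hk, mul_comm]
    obtain ⟨j, k, hj, hk, hbjk⟩ := hjk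
    obtain ⟨y, hy, hyG⟩ := irred_prod hirr (Finset.univ : Finset (Fin 3)) ![G, MvPolynomial.X j, MvPolynomial.X k] (by
      intro l _
      fin_cases l
      · exact ⟨x1, hx1, hx1G⟩
      · exact ⟨x0, hx0, by simpa using hj⟩
      · exact ⟨x0, hx0, by simpa using hk⟩)
    rw [map_prod, Fin.prod_univ_three] at hyG
    simp only [Matrix.cons_val_zero, Matrix.cons_val_one, Matrix.cons_val, eval_X] at hyG
    have hyk : y k ≠ 0 := right_ne_zero_of_mul hyG
    have hyj : y j ≠ 0 := right_ne_zero_of_mul (left_ne_zero_of_mul hyG)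
    have hyG' : eval y G ≠ 0 := left_ne_zero_of_mul (left_ne_zero_of_mul hyG)
    apply hyG'
    have h1 := hG (fun z l => y l * Complex.exp z ^ b l) ⟨by
        rw [differentiable_pi]
        intro l
        apply Differentiable.const_mul
        have : (fun z => Complex.exp z ^ b l) = fun z => Complex.exp (b l * z) := by
          funext z
          rw [Complex.exp_int_mul]
        rw [this]
        exact (differentiable_id.const_mul _).cexp,
      fun z => hb y hy _ (Complex.exp_ne_zero z), by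
        by_contra hcon
        push Not at hcon
        obtain ⟨c, hc⟩ := hcon (Real.log 2 : ℝ) 0
        have h2 : ∀ l, y l ≠ 0 → (2 : ℂ) ^ b l = c := by
          intro l hl
          have h3 := congrFun hc l
          simp only [Pi.smul_apply, smul_eq_mul, Complex.exp_zero, one_zpow, mul_one] at h3
          rw [← Complex.ofReal_exp, Real.exp_log (by norm_num)] at h3
          push_cast at h3
          rw [mul_comm] at h3
          exact mul_right_cancel₀ hl h3
        have h4 := (h2 j hyj).trans (h2 k hyk).symm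
        apply hbjk
        have h5 : (2 : ℝ) ^ b j = (2 : ℝ) ^ b k := two_zpow h4
        exact zpow_right_injective₀ (by norm_num) (by norm_num) h5⟩ 0
    simpa using h1
  · intro hno
    refine ⟨exc F, exc_hom F hF, exc_ne F hirr, ?_⟩
    intro f hf z1
    by_contra hz1
    obtain ⟨z0, b, j, k, hj, hk, hbjk, hG, hs⟩ := curveM F hC f hf (exc F) z1 hz1
    have hX : ∀ i (v : ℤ), ∀ x ∈ Pts F, eval x (sub (F i)
        ((F i).support.filter (fun α => ∑ j, (α j : ℤ) * b j = v))) = 0 := fun i v =>
      exc_sub F (f z0) hG i _ (Finset.filter_subset _ _) (by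
        rw [eval_sub']
        exact graded_zero (F i) (f z0) b (hs i) v)
    have hpres : Preserves b F := by
      intro x hx t ht
      refine ⟨?_, ?_⟩
      · obtain ⟨l, hl⟩ := Function.ne_iff.mp hx.1
        exact Function.ne_iff.mpr ⟨l, mul_ne_zero hl (zpow_ne_zero _ ht)⟩
      · intro i
        have h1 := BLV.eval_laurent_zero (RingHom.id ℂ) (F i) x b t ht (fun v => by
          rw [← hX i v x hx, eval_sub']
          rfl)
        exact h1
    obtain ⟨c, hc⟩ := hno b hpres (f z0) (hf.2.1 z0) 2 two_ne_zero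
    have h2 : ∀ l, f z0 l ≠ 0 → (2 : ℂ) ^ b l = c := by
      intro l hl
      have h3 := congrFun hc l
      simp only [Pi.smul_apply, smul_eq_mul] at h3
      rw [mul_comm] at h3
      exact mul_right_cancel₀ hl h3
    have h4 := (h2 j hj).trans (h2 k hk).symm
    apply hbjk
    have h5 : (2 : ℝ) ^ b j = (2 : ℝ) ^ b k := two_zpow h4
    exact zpow_right_injective₀ (by norm_num) (by norm_num) h5

end Pool.Agent.TH710.NW
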