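import Pool.Agent.TH710.NW.Line
import Pool.Agent.TH710.NW.Mono2
import Pool.Agent.TH957.Lang.Conv
import Pool.Agent.H159R3.Lang.Line

/-!
Hyperbolicity of projective varieties over number fields given by towers.
-/

set_option autoImplicit false

namespace Pool.Agent.TH710.NW

open MvPolynomial NumberField Filter Pool.Agent.H159R3.Exp Pool.Agent.H458.Sp
open Pool.Agent.H159R3.Lang Pool.Agent.TH957.Lang
open scoped LinearAlgebra.Projectivization Topology

variable {K : Type} [Field K] {ι : Type} {n : ℕ}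

theorem const_of_laurent (σ : K →+* ℂ) (F : ι → MvPolynomial (Fin (n + 1)) K)
    (hF : ∀ i, ∃ d, (F i).IsHomogeneous d) (h : NoRationalCurve σ F) (v : ℂ → Fin (n + 1) → ℂ)
    (hv : ∀ j, Laur fun t => v t j) (hv1 : v 1 ≠ 0)
    (hmem : ∀ t : ℂ, t ≠ 0 → ∀ i, eval (v t) (map σ (F i)) = 0) {t : ℂ} (ht : t ≠ 0) :
    ∃ c : ℂ, v t = c • v 1 := by
  obtain ⟨D, Q, c, hD, -, hQ, hc, hfin⟩ := reduce v hv hv1
  have hmem' : ∀ t i, eval₂ σ (fun j => (Q j).eval t) (F i) = 0 := by
    intro t i
    obtain ⟨d, hd⟩ := hF i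
    have h1 := reduce_mem v D Q c hD hc hfin (MvPolynomial.map σ (F i))
      (hd.map σ) (fun t ht => hmem t ht i) 1 t
    have h2 : (fun j => hom D (Q j) 1 t) = fun j => (Q j).eval t := by
      funext j
      rw [hom_of_ne D (Q j) (hD j) 1 t one_ne_zero]
      simp
    rw [h2, ← eval₂_eq_eval_map] at h1
    exact h1
  obtain ⟨c0, hc0⟩ := h Q hQ hmem' t 1
  have hc1 : c 1 ≠ 0 := by
    intro h0
    apply hv1
    funext j
    rw [hc 1 one_ne_zero j, h0, zero_mul]
    rfl
  refine ⟨c t * c0 / c 1, ?_⟩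
  funext j
  have h3 := congrFun hc0 j
  simp only [Pi.smul_apply, smul_eq_mul] at h3
  rw [Pi.smul_apply, smul_eq_mul, hc t ht j, hc 1 one_ne_zero j, h3]
  field_simp

theorem hyperbolic_of_towerM (σ : K →+* ℂ) (F : ι → MvPolynomial (Fin (n + 1)) K)
    (hF : ∀ i, ∃ d, (F i).IsHomogeneous d) (hC : ∀ i, TowerM (map σ (F i)))
    (h : NoRationalCurve σ F) : Hyperbolic σ F := by
  intro f hf hf0 hfF z1 z2
  by_contra hcon
  push Not at hcon
  obtain ⟨z0, b, j, k, hj, hk, hbjk, -, hmem⟩ := curveM (fun i => map σ (F i)) hC f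
    ⟨hf, fun z => ⟨hf0 z, fun i => by rw [← eval₂_eq_eval_map]; exact hfF z i⟩, z1, z2, hcon⟩ 1 0
    (by rw [map_one]; exact one_ne_zero)
  obtain ⟨c, hc⟩ := const_of_laurent σ F hF h (fun t l => f z0 l * t ^ b l) (fun l => by
      obtain ⟨m, hm | hm⟩ := (b l).eq_nat_or_neg
      · refine ⟨0, Polynomial.C (f z0 l) * Polynomial.X ^ m, fun t _ => ?_⟩
        simp [hm]
      · refine ⟨m, Polynomial.C (f z0 l), fun t ht => ?_⟩
        rw [hm]
        beta_reduce
        rw [zpow_neg, zpow_natCast, Polynomial.eval_C]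
        have := pow_ne_zero m ht
        field_simp) (by
      simpa using hf0 z0) (fun t ht i => hmem i t ht) (t := 2) two_ne_zero
  have h2 : ∀ l, f z0 l ≠ 0 → (2 : ℂ) ^ b l = c := by
    intro l hl
    have h3 := congrFun hc l
    simp only [Pi.smul_apply, smul_eq_mul, one_zpow, mul_one] at h3
    rw [mul_comm] at h3
    exact mul_right_cancel₀ hl h3
  have h4 := (h2 j hj).trans (h2 k hk).symm
  have h5 : (2 : ℝ) ^ b j = (2 : ℝ) ^ b k := Pool.Agent.H159R3.GGL.two_zpow h4
  exact hbjk (zpow_right_injective₀ (by norm_num) (by norm_num) h5)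

theorem hyperbolic_of_tower (σ : K →+* ℂ) (F : ι → MvPolynomial (Fin (n + 1)) K)
    (hC : ∀ i, Tower (map σ (F i))) (h : NoRationalCurve σ F) : Hyperbolic σ F := by
  intro f hf hf0 hfF z1 z2
  by_contra hcon
  push Not at hcon
  have hnc : ∀ t : ℂ, f z1 + t • f z2 ≠ 0 := by
    intro t h0
    apply hcon (-t)
    rw [neg_smul]
    exact eq_neg_of_add_eq_zero_left h0
  have h1 := h (fun j => Polynomial.C (f z1 j) + Polynomial.X * Polynomial.C (f z2 j)) ?_ ?_ 0 1
  · obtain ⟨c, hc⟩ := h1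
    have h2 : ∀ j, f z1 j = c * (f z1 j + f z2 j) := by
      intro j
      have h3 := congrFun hc j
      simpa using h3
    have hc0 : c ≠ 0 := by
      intro h0
      apply hf0 z1
      funext j
      rw [h2 j, h0, zero_mul]
      rfl
    by_cases hc1 : c = 1
    · apply hf0 z2
      funext j
      have h3 := h2 j
      rw [hc1] at h3
      simp only [Pi.zero_apply]
      linear_combination -h3
    · have hc2 : 1 - c ≠ 0 := sub_ne_zero.2 (Ne.symm hc1)
      apply hcon (c / (1 - c))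
      funext j
      rw [Pi.smul_apply, smul_eq_mul, div_mul_eq_mul_div, eq_div_iff hc2]
      linear_combination h2 j
  · intro t
    obtain ⟨j, hj⟩ := Function.ne_iff.1 (hnc t)
    refine ⟨j, ?_⟩
    intro h3
    apply hj
    simp only [Polynomial.eval_add, Polynomial.eval_C, Polynomial.eval_mul,
      Polynomial.eval_X] at h3
    simpa using h3
  · intro t i
    have h2 := (hC i).estab f hf (fun z => by rw [← eval₂_eq_eval_map]; exact hfF z i)
      ((LinearMap.proj z1 : (ℂ → ℂ) →ₗ[ℂ] ℂ) + t • LinearMap.proj z2)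
    rw [eval₂_eq_eval_map]
    rw [← h2]
    congr 2
    funext j
    simp only [Polynomial.eval_add, Polynomial.eval_C, Polynomial.eval_mul,
      Polynomial.eval_X, LinearMap.add_apply, LinearMap.smul_apply, LinearMap.proj_apply,
      smul_eq_mul]

end Pool.Agent.TH710.NW
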