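import Pool.Agent.TH710.NW.Mono
import Pool.Agent.H159R3.Exp.Laur

/-!
Affine varieties given by nested sums of few high powers of monomials: from entire curves to curves
of the multiplicative group.
-/

set_option autoImplicit false

namespace Pool.Agent.TH710.NW

open MvPolynomial Pool.Agent.H159R3.Exp Pool.Agent.H159R3.Toric Pool.Agent.H159R3.NV
open scoped Topology

variable {n l m : ℕ} {ι : Type}

/-- `Q` is a nested sum of few high powers of monomials, with the slightly stronger condition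
`s ^ 2 ≤ e` for the number `s` of the outermost summands; `d` is the product of the exponents. -/
def TowerMLog (Q : MvPolynomial (Fin m) ℂ) (d : ℕ) : Prop :=
  ∃ (s e : ℕ) (L : List (ℕ × ℕ)) (c : Fin s → ℂ) (g : Fin s → MvPolynomial (Fin m) ℂ),
    0 < e ∧ s ^ 2 ≤ e ∧ Good L ∧ (∀ i, GateM L (g i)) ∧ Q = ∑ i, C (c i) * g i ^ e ∧
      d = e * (L.map Prod.snd).prod

theorem TowerMLog.pos {Q : MvPolynomial (Fin m) ℂ} {d : ℕ} (h : TowerMLog Q d) : 0 < d := by
  obtain ⟨s, e, L, c, g, he, -, hL, -, -, rfl⟩ := h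
  exact Nat.mul_pos he hL.prod_pos

theorem gateM_rename {m m' : ℕ} (f : Fin m → Fin m') {L : List (ℕ × ℕ)} :
    ∀ {p : MvPolynomial (Fin m) ℂ}, GateM L p → GateM L (rename f p) := by
  induction L with
  | nil =>
    rintro p ⟨α, a, rfl⟩
    exact ⟨α.mapDomain f, a, rename_monomial _ _ _⟩
  | cons ke L ih =>
    rintro p ⟨c, g, hg, rfl⟩
    refine ⟨c, fun i => rename f (g i), fun i => ih (hg i), ?_⟩
    rw [map_sum]
    simp only [map_mul, rename_C, map_pow]

theorem TowerM.rename {m m' : ℕ} (f : Fin m → Fin m') {F : MvPolynomial (Fin m) ℂ}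
    (h : TowerM F) : TowerM (MvPolynomial.rename f F) := by
  obtain ⟨s, e, L, c, g, he, hs, hL, hg, rfl⟩ := h
  refine ⟨s, e, L, c, fun i => MvPolynomial.rename f (g i), he, hs, hL,
    fun i => gateM_rename f (hg i), ?_⟩
  rw [map_sum]
  simp only [map_mul, rename_C, map_pow]

theorem TowerMLog.rename {m m' : ℕ} (f : Fin m → Fin m') {F : MvPolynomial (Fin m) ℂ} {d : ℕ}
    (h : TowerMLog F d) : TowerMLog (MvPolynomial.rename f F) d := by
  obtain ⟨s, e, L, c, g, he, hs, hL, hg, rfl, rfl⟩ := h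
  refine ⟨s, e, L, c, fun i => MvPolynomial.rename f (g i), he, hs, hL,
    fun i => gateM_rename f (hg i), ?_, rfl⟩
  rw [map_sum]
  simp only [map_mul, rename_C, map_pow]

/-- powers of a variable are gates -/
theorem gateM_pow {m : ℕ} (j : Fin m) {L : List (ℕ × ℕ)} (hL : Good L) :
    GateM L ((X j : MvPolynomial (Fin m) ℂ) ^ (L.map Prod.snd).prod) := by
  induction L with
  | nil => exact ⟨Finsupp.single j 1, 1, by simp [X]⟩
  | cons ke L ih =>
    obtain ⟨h1, -⟩ := hL.head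
    let i0 : Fin ke.1 := ⟨0, h1⟩
    refine ⟨fun i => if i = i0 then 1 else 0, fun _ => X j ^ (L.map Prod.snd).prod,
      fun _ => ih hL.tail, ?_⟩
    rw [Finset.sum_eq_single i0]
    · simp only [if_true, map_one, one_mul]
      rw [← pow_mul, List.map_cons, List.prod_cons, mul_comm ke.2]
    · intro b _ hb
      simp [hb]
    · intro h
      exact absurd (Finset.mem_univ _) h

/-- the relation of a root -/
theorem TowerMLog.sub_pow {Q : MvPolynomial (Fin m) ℂ} {d : ℕ} (h : TowerMLog Q d) (j : Fin m) :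
    TowerM (Q - X j ^ d) := by
  obtain ⟨s, e, L, c, g, he, hs, hL, hg, rfl, rfl⟩ := h
  refine ⟨s + 1, e, L, Fin.cons (-1) c, Fin.cons (X j ^ (L.map Prod.snd).prod) g, he, by simpa using hs,
    hL, ?_, ?_⟩
  · intro i
    refine Fin.cases ?_ (fun i => ?_) i
    · exact gateM_pow j hL
    · exact hg i
  · rw [Fin.sum_univ_succ]
    simp only [Fin.cons_zero, Fin.cons_succ, map_neg, map_one]
    rw [← pow_mul, mul_comm (L.map Prod.snd).prod]
    ring

/-- `E`-th powers are substituted for the variables that are among the `Q j`. -/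
noncomputable def powSub (Q : Fin l → MvPolynomial (Fin n) ℂ) (E : ℕ)
    (F : MvPolynomial (Fin n) ℂ) : MvPolynomial (Fin n) ℂ := by
  classical
  exact aeval (fun j => if ∃ i, Q i = X j then X j ^ E else X j) F

theorem eval_powSub (Q : Fin l → MvPolynomial (Fin n) ℂ) (E : ℕ) (F : MvPolynomial (Fin n) ℂ)
    (h x : Fin n → ℂ) (h1 : ∀ j, (∃ i, Q i = X j) → h j ^ E = x j)
    (h2 : ∀ j, (¬ ∃ i, Q i = X j) → h j = x j) : eval h (powSub Q E F) = eval x F := by
  classical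
  unfold powSub
  have h3 : ((aeval h : MvPolynomial (Fin n) ℂ →ₐ[ℂ] ℂ).comp
      (aeval (fun j => if ∃ i, Q i = X j then X j ^ E else X j :
        Fin n → MvPolynomial (Fin n) ℂ))) = aeval x := by
    apply MvPolynomial.algHom_ext
    intro j
    rw [AlgHom.comp_apply, aeval_X, aeval_X]
    by_cases hj : ∃ i, Q i = X j
    · rw [if_pos hj, map_pow, aeval_X]
      exact h1 j hj
    · rw [if_neg hj, aeval_X]
      exact h2 j hj
  have h4 := congrArg (fun φ : MvPolynomial (Fin n) ℂ →ₐ[ℂ] ℂ => φ F) h3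
  simp only [AlgHom.comp_apply] at h4
  exact h4

/-- a one-parameter group for a system of entire functions -/
theorem exists_group_aff (H : Fin m → ℂ → ℂ) (hH : ∀ j, Differentiable ℂ (H j)) {j1 : Fin m}
    (hj1 : ∃ z w, H j1 z ≠ H j1 w) {G : ℂ → ℂ} (hGd : Differentiable ℂ G) {z1 : ℂ}
    (hG : G z1 ≠ 0) :
    ∃ (z0 : ℂ) (b : Fin m → ℤ), H j1 z0 ≠ 0 ∧ b j1 ≠ 0 ∧ G z0 ≠ 0 ∧ ∀ q : Fin m → ℤ,
        ∑ j, (q j : ℂ) * (deriv (H j) z0 / H j z0) = 0 → ∑ j, q j * b j = 0 := by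
  classical
  obtain ⟨z2, z3, hz23⟩ := hj1
  have hfd : Differentiable ℂ (deriv (H j1)) := ((hH j1).contDiff (n := 2)).differentiable_deriv_two
  have hder : ∃ z, deriv (H j1) z ≠ 0 := by
    by_contra hcon
    push Not at hcon
    exact hz23 (is_const_of_deriv_eq_zero (hH j1) hcon z2 z3)
  obtain ⟨zd, hzd⟩ := hder
  have hH1 : ∃ z, H j1 z ≠ 0 := by
    by_contra hcon
    push Not at hcon
    exact hz23 ((hcon z2).trans (hcon z3).symm)
  obtain ⟨ze, hze⟩ := hH1
  have hev : ∀ᶠ z in 𝓝[≠] (0 : ℂ), H j1 z ≠ 0 ∧ deriv (H j1) z ≠ 0 ∧ G z ≠ 0 :=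
    (ev_ne (hH j1) hze 0).and ((ev_ne hfd hzd 0).and (ev_ne hGd hG 0))
  obtain ⟨z0, hz0, hz0d, hz0G⟩ := hev.exists
  set u : Fin m → ℂ := fun j => deriv (H j) z0 / H j z0 with hu
  have hune : ∑ j, (((Pi.single j1 1 : Fin m → ℤ) j : ℤ) : ℂ) * u j ≠ 0 := by
    rw [Finset.sum_eq_single j1]
    · simp only [Pi.single_eq_same, Int.cast_one, one_mul]
      exact div_ne_zero hz0d hz0
    · intro j _ hj
      simp [hj]
    · simp
  obtain ⟨b, hb, hbp⟩ := exists_b u _ hune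
  refine ⟨z0, b, hz0, ?_, hz0G, hb⟩
  intro h0
  apply hbp
  rw [Finset.sum_eq_single j1]
  · simp [h0]
  · intro j _ hj
    simp [hj]
  · simp

theorem laur_mono (c : ℂ) (b : ℤ) (e : ℕ) : Laur fun t : ℂ => (c * t ^ b) ^ e := by
  have h1 : Laur fun t : ℂ => c ^ e * t ^ (b * e) := (Laur.const (c ^ e)).mul (Laur.zpow (b * e))
  have h2 : (fun t : ℂ => (c * t ^ b) ^ e) = fun t : ℂ => c ^ e * t ^ (b * e) := by
    funext t
    rw [mul_pow, zpow_mul, zpow_natCast]
  rw [h2]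
  exact h1

theorem laur_inv (c : ℂ) (b : ℤ) (e : ℕ) : Laur fun t : ℂ => ((c * t ^ b) ^ e)⁻¹ := by
  have h1 : Laur fun t : ℂ => (c ^ e)⁻¹ * t ^ (-(b * e)) :=
    (Laur.const (c ^ e)⁻¹).mul (Laur.zpow (-(b * e)))
  have h2 : (fun t : ℂ => ((c * t ^ b) ^ e)⁻¹) = fun t : ℂ => (c ^ e)⁻¹ * t ^ (-(b * e)) := by
    funext t
    rw [mul_pow, zpow_neg, zpow_mul, zpow_natCast, mul_inv]
  rw [h2]
  exact h1

/-- **From entire curves to curves of the multiplicative group, monomial leaves.** -/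
theorem mono_curve {F : ι → MvPolynomial (Fin n) ℂ} {Q : Fin l → MvPolynomial (Fin n) ℂ} {E : ℕ}
    (hE : 0 < E) (hF : ∀ i, TowerM (powSub Q E (F i)))
    (hQ : ∀ j, ∃ d, TowerMLog (powSub Q E (Q j)) d) (f : ℂ → Fin n → ℂ)
    (g : ℂ → Fin l → ℂ) (hf : Differentiable ℂ f) (hfF : ∀ z i, eval (f z) (F i) = 0)
    (hfQ : ∀ z j, eval (f z) (Q j) * g z j = 1) (hnc : ∃ z w, f z ≠ f w) {G : ℂ → ℂ}
    (hGd : Differentiable ℂ G) {z1 : ℂ} (hG : G z1 ≠ 0) :
    ∃ (v : ℂ → Fin n → ℂ) (u : ℂ → Fin l → ℂ) (z0 : ℂ), (∀ j, Laur fun t => v t j) ∧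
      (∀ j, Laur fun t => u t j) ∧ (∀ t, t ≠ 0 → ∀ i, eval (v t) (F i) = 0) ∧
      (∀ t, t ≠ 0 → ∀ j, eval (v t) (Q j) * u t j = 1) ∧ G z0 ≠ 0 ∧ v 1 = f z0 ∧ u 1 = g z0 ∧
      v 2 ≠ v 1 := by
  classical
  choose d hd using hQ
  have hfj : ∀ j, Differentiable ℂ (fun z => f z j) := fun j => by
    rw [differentiable_pi] at hf
    exact hf j
  -- the roots of the invertible coordinates
  have hroot : ∀ j, ∃ r : ℂ → ℂ, Differentiable ℂ r ∧ ((∃ i, Q i = X j) → ∀ z, r z ^ E = f z j) ∧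
      ((¬ ∃ i, Q i = X j) → ∀ z, r z = f z j) := by
    intro j
    by_cases hj : ∃ i, Q i = X j
    · obtain ⟨i, hi⟩ := hj
      obtain ⟨r, hr, hr2⟩ := root (fun z => f z j) (hfj j) (fun z h0 => by
        have h1 := hfQ z i
        rw [hi, eval_X, h0, zero_mul] at h1
        exact zero_ne_one h1) hE
      exact ⟨r, hr, fun _ => hr2, fun h => absurd ⟨i, hi⟩ h⟩
    · exact ⟨fun z => f z j, hfj j, fun h => absurd h hj, fun _ _ => rfl⟩
  choose h hhd hh1 hh2 using hroot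
  have hQd : ∀ j, Differentiable ℂ fun z => eval (f z) (Q j) := fun j =>
    eval_diff (φ := fun j z => f z j) hfj (Q j)
  have hQ0 : ∀ j z, eval (f z) (Q j) ≠ 0 := fun j z => left_ne_zero_of_mul_eq_one (hfQ z j)
  have hρ : ∀ j, ∃ r : ℂ → ℂ, Differentiable ℂ r ∧ ∀ z, r z ^ d j = eval (f z) (Q j) := fun j =>
    root _ (hQd j) (fun z => hQ0 j z) (hd j).pos
  choose ρ hρd hρ using hρ
  -- all functions
  let H : Fin (n + l) → ℂ → ℂ := Fin.append h ρ
  have hHl : ∀ j : Fin n, H (Fin.castAdd l j) = h j := fun j => Fin.append_left _ _ _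
  have hHr : ∀ j : Fin l, H (Fin.natAdd n j) = ρ j := fun j => Fin.append_right _ _ _
  have hHd : ∀ j, Differentiable ℂ (H j) := by
    intro j
    refine Fin.addCases (fun i => ?_) (fun i => ?_) j
    · rw [hHl]; exact hhd i
    · rw [hHr]; exact hρd i
  obtain ⟨zz, zw, hzw⟩ := hnc
  obtain ⟨j1, hj1⟩ := Function.ne_iff.1 hzw
  have hHj1 : ∃ z w, H (Fin.castAdd l j1) z ≠ H (Fin.castAdd l j1) w := by
    refine ⟨zz, zw, fun h0 => hj1 ?_⟩
    rw [hHl] at h0
    by_cases hj : ∃ i, Q i = X j1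
    · rw [← hh1 j1 hj, ← hh1 j1 hj, h0]
    · rw [← hh2 j1 hj, ← hh2 j1 hj, h0]
  obtain ⟨z0, b, hz0, hb1, hG0, hb⟩ := exists_group_aff H hHd hHj1 hGd hG
  -- the specialisation
  have key : ∀ P : MvPolynomial (Fin (n + l)) ℂ, TowerM P → (∀ z, eval (fun j => H j z) P = 0) →
      ∀ t, t ≠ 0 → eval (fun j => H j z0 * t ^ b j) P = 0 := fun P hP h0 t ht =>
    towerM_spec H z0 b t hP hHd hb ht h0
  let x : ℂ → Fin n → ℂ := fun t j => if ∃ i, Q i = X j then
    (h j z0 * t ^ b (Fin.castAdd l j)) ^ E else (h j z0 * t ^ b (Fin.castAdd l j)) ^ 1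
  have hx1 : ∀ t j, (∃ i, Q i = X j) → (h j z0 * t ^ b (Fin.castAdd l j)) ^ E = x t j := by
    intro t j hj
    simp only [x]
    rw [if_pos hj]
  have hx2 : ∀ t j, (¬ ∃ i, Q i = X j) → h j z0 * t ^ b (Fin.castAdd l j) = x t j := by
    intro t j hj
    simp only [x]
    rw [if_neg hj, pow_one]
  have hxe : ∀ (P : MvPolynomial (Fin n) ℂ) (t : ℂ),
      eval (fun j => H j z0 * t ^ b j) (rename (Fin.castAdd l) (powSub Q E P)) = eval (x t) P := by
    intro P t
    rw [eval_rename]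
    apply eval_powSub
    · intro j hj
      rw [← hx1 t j hj, Function.comp_apply, hHl]
    · intro j hj
      rw [← hx2 t j hj, Function.comp_apply, hHl]
  have hfe : ∀ (P : MvPolynomial (Fin n) ℂ) (z : ℂ),
      eval (fun j => H j z) (rename (Fin.castAdd l) (powSub Q E P)) = eval (f z) P := by
    intro P z
    rw [eval_rename]
    apply eval_powSub
    · intro j hj
      rw [← hh1 j hj z, Function.comp_apply, hHl]
    · intro j hj
      rw [← hh2 j hj z, Function.comp_apply, hHl]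
  have hρ0 : ∀ j, ρ j z0 ≠ 0 := by
    intro j h0
    apply hQ0 j z0
    rw [← hρ, h0, zero_pow (hd j).pos.ne']
  have hxQ : ∀ t, t ≠ 0 → ∀ j, eval (x t) (Q j) = (ρ j z0 * t ^ b (Fin.natAdd n j)) ^ d j := by
    intro t ht j
    have h1 := key _ (((hd j).rename (Fin.castAdd l)).sub_pow (Fin.natAdd n j)) (fun z => by
      rw [map_sub, hfe, map_pow, eval_X, hHr, hρ, sub_self]) t ht
    rw [map_sub, hxe, map_pow, eval_X, hHr, sub_eq_zero] at h1
    exact h1
  refine ⟨x, fun t j => ((ρ j z0 * t ^ b (Fin.natAdd n j)) ^ d j)⁻¹, z0, ?_, fun j => ?_, ?_, ?_,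
    hG0, ?_, ?_, ?_⟩
  · intro j
    simp only [x]
    by_cases hj : ∃ i, Q i = X j
    · simp only [if_pos hj]
      exact laur_mono _ _ _
    · simp only [if_neg hj]
      exact laur_mono _ _ _
  · exact laur_inv _ _ _
  · intro t ht i
    rw [← hxe]
    exact key _ ((hF i).rename _) (fun z => by rw [hfe]; exact hfF z i) t ht
  · intro t ht j
    rw [hxQ t ht j]
    exact mul_inv_cancel₀ (pow_ne_zero _ (mul_ne_zero (hρ0 j) (zpow_ne_zero _ ht)))
  · funext j
    by_cases hj : ∃ i, Q i = X j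
    · rw [← hx1 1 j hj, one_zpow, mul_one, hh1 j hj]
    · rw [← hx2 1 j hj, one_zpow, mul_one, hh2 j hj]
  · funext j
    beta_reduce
    rw [one_zpow, mul_one, hρ]
    exact (eq_inv_of_mul_eq_one_right (hfQ z0 j)).symm
  · intro heq
    have h1 := congrFun heq j1
    have h2 : ∀ e : ℕ, 0 < e → (h j1 z0 * (2 : ℂ) ^ b (Fin.castAdd l j1)) ^ e
        = (h j1 z0 * (1 : ℂ) ^ b (Fin.castAdd l j1)) ^ e → False := by
      intro e he h3
      rw [one_zpow, mul_one, mul_pow] at h3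
      have h4 : h j1 z0 ≠ 0 := by
        rw [hHl] at hz0
        exact hz0
      have h5 : ((2 : ℂ) ^ b (Fin.castAdd l j1)) ^ e = 1 :=
        mul_left_cancel₀ (pow_ne_zero e h4) (h3.trans (mul_one _).symm)
      rw [← zpow_natCast, ← zpow_mul] at h5
      have h6 : ((2 : ℝ) ^ (b (Fin.castAdd l j1) * (e : ℤ))) = 1 := by
        apply Complex.ofReal_injective
        push_cast
        exact h5
      have h7 : b (Fin.castAdd l j1) * (e : ℤ) = 0 := by
        apply zpow_right_injective₀ (a := (2 : ℝ)) (by norm_num) (by norm_num)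
        beta_reduce
        rw [zpow_zero]
        exact h6
      rcases mul_eq_zero.1 h7 with h8 | h8
      · exact hb1 h8
      · exact he.ne' (by exact_mod_cast h8)
    by_cases hj : ∃ i, Q i = X j1
    · rw [← hx1 2 j1 hj, ← hx1 1 j1 hj] at h1
      exact h2 E hE h1
    · rw [← hx2 2 j1 hj, ← hx2 1 j1 hj] at h1
      exact h2 1 one_pos (by rw [pow_one, pow_one]; exact h1)

end Pool.Agent.TH710.NW
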