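import Pool.Agent.TH710.NW.Aff
import Pool.Agent.TH710.NW.MonoAff
import Pool.Agent.W235.RM.Final

/-!
Entire curves and integral points on affine varieties over number fields given by nested sums of few
high powers.
-/

set_option autoImplicit false

namespace Pool.Agent.TH710.NW

open MvPolynomial Pool.Agent.H159R3.Exp Pool.Agent.W235.RM
open scoped NumberField

variable {n l : ℕ} {ι : Type}

/-- The equations `F_i (x) = 0` and `Q_j (x) u_j = 1` in the variables `x_1, …, x_n, u_1, …, u_l`:
the complement of the hypersurfaces `Q_j = 0` in the affine variety `F = 0`. -/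
noncomputable def sys {R : Type} [CommRing R] (F : ι → MvPolynomial (Fin n) R)
    (Q : Fin l → MvPolynomial (Fin n) R) : ι ⊕ Fin l → MvPolynomial (Fin (n + l)) R
  | Sum.inl i => rename (Fin.castAdd l) (F i)
  | Sum.inr j => rename (Fin.castAdd l) (Q j) * X (Fin.natAdd n j) - 1

/-- The `F i` and the `Q j` are nested sums of few high powers of polynomials of degree at most
one. -/
def LinearNested (F : ι → MvPolynomial (Fin n) ℂ) (Q : Fin l → MvPolynomial (Fin n) ℂ) : Prop :=
  (∀ i, AffTower (F i)) ∧ ∀ j, AffTowerLog (Q j)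

/-- The `F i` and the `Q j` are nested sums of few high powers of monomials, after `E`-th powers
have been substituted for the variables that are among the `Q j`. -/
def MonomialNested (F : ι → MvPolynomial (Fin n) ℂ) (Q : Fin l → MvPolynomial (Fin n) ℂ) : Prop :=
  ∃ E : ℕ, 0 < E ∧ (∀ i, TowerM (powSub Q E (F i))) ∧ ∀ j, ∃ d, TowerMLog (powSub Q E (Q j)) d

theorem append_parts (p : Fin (n + l) → ℂ) :
    Fin.append (fun j => p (Fin.castAdd l j)) (fun j => p (Fin.natAdd n j)) = p := by
  funext j
  refine Fin.addCases (fun i => ?_) (fun i => ?_) j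
  · rw [Fin.append_left]
  · rw [Fin.append_right]

theorem entire_of_gm {K : Type} [Field K] {κ : Type} (σ : K →+* ℂ)
    (F : ι → MvPolynomial (Fin n) (𝓞 K)) (Q : Fin l → MvPolynomial (Fin n) (𝓞 K))
    (G : κ → MvPolynomial (Fin (n + l)) (𝓞 K))
    (hC : LinearNested (fun i => map (σ.comp (algebraMap (𝓞 K) K)) (F i))
        (fun j => map (σ.comp (algebraMap (𝓞 K) K)) (Q j)) ∨
      MonomialNested (fun i => map (σ.comp (algebraMap (𝓞 K) K)) (F i))
        (fun j => map (σ.comp (algebraMap (𝓞 K) K)) (Q j)))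
    (h : GmCurvesIn σ (sys F Q) G) : EntireCurvesIn σ (sys F Q) G := by
  classical
  set φ : 𝓞 K →+* ℂ := σ.comp (algebraMap (𝓞 K) K) with hφ
  intro p hp hpF hnc z1 k
  by_contra hG
  have hpj : ∀ j, Differentiable ℂ (fun z => p z j) := fun j => by
    rw [differentiable_pi] at hp
    exact hp j
  let f : ℂ → Fin n → ℂ := fun z j => p z (Fin.castAdd l j)
  let g : ℂ → Fin l → ℂ := fun z j => p z (Fin.natAdd n j)
  have hf : Differentiable ℂ f := by
    rw [differentiable_pi]
    exact fun j => hpj _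
  have hfF : ∀ z i, eval (f z) (map φ (F i)) = 0 := by
    intro z i
    have h1 := hpF z (Sum.inl i)
    simp only [sys] at h1
    rw [eval₂_rename] at h1
    rw [← eval₂_eq_eval_map]
    exact h1
  have hfQ : ∀ z j, eval (f z) (map φ (Q j)) * g z j = 1 := by
    intro z j
    have h1 := hpF z (Sum.inr j)
    simp only [sys] at h1
    rw [eval₂_sub, eval₂_mul, eval₂_X, eval₂_one, eval₂_rename, sub_eq_zero] at h1
    rw [← eval₂_eq_eval_map]
    exact h1
  have hfnc : ∃ z w, f z ≠ f w := by
    obtain ⟨z, w, hzw⟩ := hnc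
    refine ⟨z, w, fun heq => hzw ?_⟩
    rw [← append_parts (p z), ← append_parts (p w)]
    have h1 : g z = g w := by
      funext j
      have h2 := hfQ z j
      have h3 := hfQ w j
      rw [heq] at h2
      exact mul_left_cancel₀ (left_ne_zero_of_mul_eq_one h3) (h2.trans h3.symm)
    change Fin.append (f z) (g z) = Fin.append (f w) (g w)
    rw [heq, h1]
  -- the curve
  have key : ∃ (v : ℂ → Fin n → ℂ) (u : ℂ → Fin l → ℂ) (z0 : ℂ), (∀ j, Laur fun t => v t j) ∧
      (∀ j, Laur fun t => u t j) ∧ (∀ t, t ≠ 0 → ∀ i, eval (v t) (map φ (F i)) = 0) ∧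
      (∀ t, t ≠ 0 → ∀ j, eval (v t) (map φ (Q j)) * u t j = 1) ∧
      eval₂ φ (p z0) (G k) ≠ 0 ∧ v 1 = f z0 ∧ u 1 = g z0 ∧ v 2 ≠ v 1 := by
    rcases hC with ⟨h1, h2⟩ | ⟨E, hE, h1, h2⟩
    · obtain ⟨v, u, a1, a2, a3, a4, a5, a6, a7⟩ := aff_curve h1 h2 f g hf hfF hfQ hfnc z1
      exact ⟨v, u, z1, a1, a2, a3, a4, hG, a5, a6, a7⟩
    · refine mono_curve hE h1 h2 f g hf hfF hfQ hfnc (G := fun z => eval₂ φ (p z) (G k)) ?_ hG
      have h3 : (fun z => eval₂ φ (p z) (G k)) = fun z => eval (fun j => p z j) (map φ (G k)) := by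
        funext z
        rw [eval₂_eq_eval_map]
      rw [h3]
      exact eval_diff (φ := fun j z => p z j) hpj _
  obtain ⟨v, u, z0, a1, a2, a3, a4, a5, a6, a7, a8⟩ := key
  apply a5
  have h1 := h (fun t => Fin.append (v t) (u t)) ?_ ?_ ⟨2, 1, two_ne_zero, one_ne_zero, ?_⟩ k 1
    one_ne_zero
  · rw [← h1]
    congr 1
    beta_reduce
    rw [a6, a7]
    exact (append_parts (p z0)).symm
  · intro j
    refine Fin.addCases (fun i => ?_) (fun i => ?_) j
    · simp only [Fin.append_left]
      exact a1 i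
    · simp only [Fin.append_right]
      exact a2 i
  · intro i t ht
    have hcomp : (Fin.append (v t) (u t)) ∘ Fin.castAdd l = v t := by
      funext j
      rw [Function.comp_apply, Fin.append_left]
    cases i with
    | inl i =>
      simp only [sys]
      rw [eval₂_rename, hcomp, eval₂_eq_eval_map]
      exact a3 t ht i
    | inr j =>
      simp only [sys]
      rw [eval₂_sub, eval₂_mul, eval₂_X, eval₂_one, eval₂_rename, hcomp, Fin.append_right,
        eval₂_eq_eval_map, a4 t ht j, sub_self]
  · intro heq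
    apply a8
    funext j
    have h2 := congrFun heq (Fin.castAdd l j)
    beta_reduce at h2
    rwa [Fin.append_left, Fin.append_left] at h2

end Pool.Agent.TH710.NW
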