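import Pool.Agent.TH710.NW.Line
import Pool.Agent.H159R3.Exp.Laur

/-!
Affine varieties given by nested sums of few high powers of polynomials of degree at most one:
from entire curves to curves of the multiplicative group.
-/

set_option autoImplicit false

namespace Pool.Agent.TH710.NW

open MvPolynomial Pool.Agent.H159R3.War Pool.Agent.H159R3.Exp

variable {n l : ℕ} {ι : Type}

/-- `F` is a nested sum of few high powers of polynomials of degree at most one: it is obtained by
setting the first variable equal to one in a nested sum of few high powers of linear forms. -/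
def AffTower (F : MvPolynomial (Fin n) ℂ) : Prop :=
  ∃ T : MvPolynomial (Fin (n + 1)) ℂ, Tower T ∧
    F = aeval (Fin.cons 1 X : Fin (n + 1) → MvPolynomial (Fin n) ℂ) T

/-- The same for the sums with the slightly stronger condition on the outermost sum. -/
def AffTowerLog (F : MvPolynomial (Fin n) ℂ) : Prop :=
  ∃ (T : MvPolynomial (Fin (n + 1)) ℂ) (d : ℕ), TowerLog T d ∧
    F = aeval (Fin.cons 1 X : Fin (n + 1) → MvPolynomial (Fin n) ℂ) T

/-- the point with homogeneous coordinates `1, x` -/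
def hc (x : Fin n → ℂ) : Fin (n + 1) → ℂ := Fin.cons 1 x

theorem eval_hc (T : MvPolynomial (Fin (n + 1)) ℂ) (x : Fin n → ℂ) :
    eval x (aeval (Fin.cons 1 X : Fin (n + 1) → MvPolynomial (Fin n) ℂ) T) = eval (hc x) T := by
  have h1 : ((aeval x : MvPolynomial (Fin n) ℂ →ₐ[ℂ] ℂ).comp
      (aeval (Fin.cons 1 X : Fin (n + 1) → MvPolynomial (Fin n) ℂ))) = aeval (hc x) := by
    apply MvPolynomial.algHom_ext
    intro i
    refine Fin.cases ?_ (fun j => ?_) i
    · simp [hc]
    · simp [hc]
  have h2 := congrArg (fun φ : MvPolynomial (Fin (n + 1)) ℂ →ₐ[ℂ] ℂ => φ T) h1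
  simp only [AlgHom.comp_apply, coe_aeval_eq_eval] at h2
  exact h2

theorem hom_scale {T : MvPolynomial (Fin (n + 1)) ℂ} {d : ℕ} (hT : T.IsHomogeneous d) (c : ℂ)
    (x : Fin (n + 1) → ℂ) : eval (c • x) T = c ^ d * eval x T := by
  rw [eval_eq', eval_eq', Finset.mul_sum]
  refine Finset.sum_congr rfl fun α hα => ?_
  have h1 := hT (mem_support_iff.1 hα)
  rw [Finsupp.weight_apply, Finsupp.sum_fintype _ _ (by simp)] at h1
  have h2 : ∑ i, α i = d := by simpa using h1
  simp only [Pi.smul_apply, smul_eq_mul, mul_pow]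
  rw [Finset.prod_mul_distrib, Finset.prod_pow_eq_pow_sum, h2]
  ring

theorem towerLog_X0 : TowerLog (X 0 : MvPolynomial (Fin (n + 1)) ℂ) 1 := by
  refine ⟨1, 1, [], fun _ => 1, fun _ => X 0, one_pos, le_refl _, fun x hx => ?_, fun _ => ?_,
    by simp, by simp⟩
  · exact absurd hx (by simp)
  · refine ⟨fun j => if j = 0 then 1 else 0, ?_⟩
    rw [Finset.sum_eq_single 0]
    · simp
    · intro b _ hb
      simp [hb]
    · intro h
      exact absurd (Finset.mem_univ _) h

/-- **From entire curves to curves of the multiplicative group, affine linear leaves.** -/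
theorem aff_curve {F : ι → MvPolynomial (Fin n) ℂ} {Q : Fin l → MvPolynomial (Fin n) ℂ}
    (hF : ∀ i, AffTower (F i)) (hQ : ∀ j, AffTowerLog (Q j)) (f : ℂ → Fin n → ℂ)
    (g : ℂ → Fin l → ℂ) (hf : Differentiable ℂ f) (hfF : ∀ z i, eval (f z) (F i) = 0)
    (hfQ : ∀ z j, eval (f z) (Q j) * g z j = 1) (hnc : ∃ z w, f z ≠ f w) (z1 : ℂ) :
    ∃ (v : ℂ → Fin n → ℂ) (u : ℂ → Fin l → ℂ), (∀ j, Laur fun t => v t j) ∧
      (∀ j, Laur fun t => u t j) ∧ (∀ t, t ≠ 0 → ∀ i, eval (v t) (F i) = 0) ∧
      (∀ t, t ≠ 0 → ∀ j, eval (v t) (Q j) * u t j = 1) ∧ v 1 = f z1 ∧ u 1 = g z1 ∧ v 2 ≠ v 1 := by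
  classical
  choose S hS hFS using hF
  choose T d hT hQT using hQ
  have hfj : ∀ j, Differentiable ℂ (fun z => f z j) := fun j => by
    rw [differentiable_pi] at hf
    exact hf j
  -- the homogeneous system
  let B : Option (Fin l) → MvPolynomial (Fin (n + 1)) ℂ := fun o => o.elim (X 0) T
  let D : Option (Fin l) → ℕ := fun o => o.elim 1 d
  have hB : ∀ o, StabLog (B o) (D o) := by
    intro o
    cases o with
    | none => exact towerLog_X0.stab
    | some j => exact (hT j).stab
  have hfS : ∀ z i, eval (hc (f z)) (S i) = 0 := by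
    intro z i
    rw [← eval_hc, ← hFS]
    exact hfF z i
  have hfT : ∀ z j, eval (hc (f z)) (T j) * g z j = 1 := by
    intro z j
    rw [← eval_hc, ← hQT]
    exact hfQ z j
  have hfB : ∀ z o, eval (hc (f z)) (B o) ≠ 0 := by
    intro z o
    cases o with
    | none =>
      change eval (hc (f z)) (X 0) ≠ 0
      rw [eval_X]
      exact one_ne_zero
    | some j => exact left_ne_zero_of_mul_eq_one (hfT z j)
  have hhc : Differentiable ℂ fun z => hc (f z) := by
    rw [differentiable_pi]
    intro i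
    refine Fin.cases ?_ (fun j => ?_) i
    · exact differentiable_const _
    · exact hfj j
  obtain ⟨w, hw⟩ : ∃ w, f w ≠ f z1 := by
    by_contra hcon
    push Not at hcon
    obtain ⟨z, w, hzw⟩ := hnc
    exact hzw ((hcon z).trans (hcon w).symm)
  have hli : LinearIndependent ℂ ![hc (f z1), hc (f w)] := by
    rw [LinearIndependent.pair_iff]
    intro s t hst
    have h0 : s + t = 0 := by
      have := congrFun hst 0
      simpa [hc] using this
    obtain ⟨j, hj⟩ := Function.ne_iff.1 hw
    have h1 : s * f z1 j + t * f w j = 0 := by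
      have := congrFun hst j.succ
      simpa [hc] using this
    have h2 : t * (f w j - f z1 j) = 0 := by linear_combination h1 - f z1 j * h0
    have h3 : t = 0 := (mul_eq_zero.1 h2).resolve_right (sub_ne_zero.2 hj)
    exact ⟨by rw [h3, add_zero] at h0; exact h0, h3⟩
  obtain ⟨v0, c, U, hline, hBv⟩ := log_line S (fun i => (hS i).stab) B D hB (fun z => hc (f z)) hhc
    hfS hfB z1 w hli
  -- the parameter
  obtain ⟨τ, P, hτ, hτ1, hτ2, e, he⟩ : ∃ (τ : ℂ → ℂ) (P : Polynomial ℂ), (∀ t, τ t = P.eval t) ∧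
      τ 1 = 0 ∧ τ 2 ≠ 0 ∧ ∃ e : ℕ, ∀ t, 1 + c * τ t = t ^ e := by
    by_cases hc0 : c = 0
    · refine ⟨fun t => t - 1, Polynomial.X - Polynomial.C 1, fun t => by simp, by simp, by norm_num,
        0, fun t => by rw [hc0]; simp⟩
    · refine ⟨fun t => (t - 1) / c, (Polynomial.X - Polynomial.C 1) * Polynomial.C (1 / c),
        fun t => ?_, by simp, ?_, 1, fun t => ?_⟩
      · simp only [Polynomial.eval_mul, Polynomial.eval_sub, Polynomial.eval_X, Polynomial.eval_C]
        ring
      · refine div_ne_zero ?_ hc0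
        norm_num
      · field_simp
        ring
  -- the values of the boundary forms
  have hval : ∀ o, ∃ a : ℕ, ∀ t, eval (hc (f z1) + τ t • v0) (B o)
      = eval (hc (f z1)) (B o) * t ^ a := by
    intro o
    by_cases ho : o ∈ U
    · refine ⟨e * D o, fun t => ?_⟩
      have h1 := (hBv o 1 (τ t)).1 ho
      rw [one_smul] at h1
      rw [h1, he, pow_mul]
    · refine ⟨0, fun t => ?_⟩
      have h1 := (hBv o 1 (τ t)).2 ho
      rw [one_smul] at h1
      rw [h1, one_pow, pow_zero]
  choose a ha using hval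
  have ha0 : ∀ t, (hc (f z1) + τ t • v0) 0 = t ^ a none := by
    intro t
    have h1 := ha none t
    change eval (hc (f z1) + τ t • v0) (X 0) = eval (hc (f z1)) (X 0) * t ^ a none at h1
    rw [eval_X, eval_X] at h1
    rw [h1]
    change (1 : ℂ) * t ^ a none = _
    rw [one_mul]
  let x : ℂ → Fin n → ℂ := fun t j => (hc (f z1) + τ t • v0) j.succ / t ^ a none
  have hx : ∀ t, t ≠ 0 → hc (x t) = (t ^ a none)⁻¹ • (hc (f z1) + τ t • v0) := by
    intro t ht
    funext i
    refine Fin.cases ?_ (fun j => ?_) i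
    · rw [Pi.smul_apply, ha0, smul_eq_mul, inv_mul_cancel₀ (pow_ne_zero _ ht)]
      rfl
    · rw [Pi.smul_apply, smul_eq_mul, inv_mul_eq_div]
      rfl
  have hxT : ∀ t, t ≠ 0 → ∀ j, eval (x t) (Q j) =
      ((t ^ a none)⁻¹) ^ d j * (eval (hc (f z1)) (T j) * t ^ a (some j)) := by
    intro t ht j
    rw [hQT, eval_hc, hx t ht, hom_scale (hT j).hom]
    congr 1
    exact ha (some j) t
  refine ⟨x, fun t j => (t ^ a none) ^ d j * (g z1 j * (t ^ a (some j))⁻¹), ?_, ?_, ?_, ?_, ?_,
    ?_, ?_⟩
  · intro j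
    refine ⟨a none, Polynomial.C (f z1 j) + P * Polynomial.C (v0 j.succ), fun t ht => ?_⟩
    have h1 : (hc (f z1) + τ t • v0) j.succ = f z1 j + τ t * v0 j.succ := rfl
    simp only [x]
    rw [h1, hτ]
    have := pow_ne_zero (a none) ht
    simp only [Polynomial.eval_add, Polynomial.eval_mul, Polynomial.eval_C]
    field_simp
  · intro j
    refine ⟨a (some j), Polynomial.X ^ (a none * d j) * Polynomial.C (g z1 j), fun t ht => ?_⟩
    have := pow_ne_zero (a (some j)) ht
    simp only [Polynomial.eval_mul, Polynomial.eval_C, Polynomial.eval_pow, Polynomial.eval_X]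
    rw [pow_mul]
    field_simp
  · intro t ht i
    obtain ⟨m, hm⟩ := (hS i).hom
    rw [hFS, eval_hc, hx t ht, hom_scale hm]
    have h1 := hline.2 i 1 (τ t)
    rw [one_smul] at h1
    rw [h1, mul_zero]
  · intro t ht j
    rw [hxT t ht]
    have h1 := hfT z1 j
    have h2 := pow_ne_zero (a none) ht
    have h3 := pow_ne_zero (a (some j)) ht
    have h4 := pow_ne_zero (d j) h2
    calc (t ^ a none)⁻¹ ^ d j * (eval (hc (f z1)) (T j) * t ^ a (some j)) *
          ((t ^ a none) ^ d j * (g z1 j * (t ^ a (some j))⁻¹))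
        = ((t ^ a none)⁻¹ ^ d j * (t ^ a none) ^ d j) * (t ^ a (some j) * (t ^ a (some j))⁻¹) *
          (eval (hc (f z1)) (T j) * g z1 j) := by ring
      _ = 1 := by
          rw [← mul_pow, inv_mul_cancel₀ h2, one_pow, mul_inv_cancel₀ h3, h1]
          ring
  · funext j
    simp only [x]
    rw [hτ1, zero_smul, add_zero, one_pow, div_one]
    rfl
  · funext j
    simp
  · intro heq
    have h1 : hc (x 2) = hc (x 1) := by rw [heq]
    rw [hx 2 two_ne_zero, hx 1 one_ne_zero, hτ1, zero_smul, add_zero, one_pow, inv_one,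
      one_smul] at h1
    have h2 := LinearIndependent.pair_iff.1 hline.1 (((2 : ℂ) ^ a none)⁻¹ - 1)
      (((2 : ℂ) ^ a none)⁻¹ * τ 2) (by
        rw [smul_add, smul_smul] at h1
        rw [sub_smul, one_smul]
        nth_rewrite 2 [← h1]
        abel)
    exact mul_ne_zero (inv_ne_zero (pow_ne_zero _ two_ne_zero)) hτ2 h2.2

end Pool.Agent.TH710.NW
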