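import Mathlib

/-!
Towers: nested sums of few high powers of linear forms.
-/

set_option autoImplicit false

namespace Pool.Agent.TH710.NW

open MvPolynomial

/-- The gates of a tower over the linear forms. `L` is the list of the pairs (number of summands,
exponent) of the levels, the outermost first. The gates over the empty list are the linear forms,
the gates over `(k, e) :: L` are the sums `∑ c_i g_i ^ e` with `k` summands, `g_i` gates
over `L`. -/
def Gate {m : ℕ} : List (ℕ × ℕ) → MvPolynomial (Fin m) ℂ → Prop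
  | [], p => ∃ a : Fin m → ℂ, p = ∑ j, C (a j) * X j
  | ke :: L, p => ∃ (c : Fin ke.1 → ℂ) (g : Fin ke.1 → MvPolynomial (Fin m) ℂ),
      (∀ i, Gate L (g i)) ∧ p = ∑ i, C (c i) * g i ^ ke.2

/-- All exponents are large compared with the numbers of summands. -/
def Good (L : List (ℕ × ℕ)) : Prop := ∀ ke ∈ L, 1 ≤ ke.1 ∧ (2 * ke.1 - 1) ^ 2 ≤ ke.2

/-- `F` is a nested sum of few high powers of linear forms: `F = ∑ c_i g_i ^ e` with `s` summands,
`(s - 1) ^ 2 ≤ e`, where the `g_i` are gates of a tower whose exponents are large compared with its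
numbers of summands. -/
def Tower {m : ℕ} (F : MvPolynomial (Fin m) ℂ) : Prop :=
  ∃ (s e : ℕ) (L : List (ℕ × ℕ)) (c : Fin s → ℂ) (g : Fin s → MvPolynomial (Fin m) ℂ),
    0 < e ∧ (s - 1) ^ 2 ≤ e ∧ Good L ∧ (∀ i, Gate L (g i)) ∧ F = ∑ i, C (c i) * g i ^ e

/-- `Q` is a nested sum of few high powers of linear forms, of degree `d`, with the slightly
stronger condition `s ^ 2 ≤ e` for the number `s` of the outermost summands. -/
def TowerLog {m : ℕ} (Q : MvPolynomial (Fin m) ℂ) (d : ℕ) : Prop :=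
  ∃ (s e : ℕ) (L : List (ℕ × ℕ)) (c : Fin s → ℂ) (g : Fin s → MvPolynomial (Fin m) ℂ),
    0 < e ∧ s ^ 2 ≤ e ∧ Good L ∧ (∀ i, Gate L (g i)) ∧ Q = ∑ i, C (c i) * g i ^ e ∧
      d = e * (L.map Prod.snd).prod

theorem Good.tail {ke : ℕ × ℕ} {L : List (ℕ × ℕ)} (h : Good (ke :: L)) : Good L :=
  fun x hx => h x (List.mem_cons_of_mem _ hx)

theorem Good.head {ke : ℕ × ℕ} {L : List (ℕ × ℕ)} (h : Good (ke :: L)) :
    1 ≤ ke.1 ∧ (2 * ke.1 - 1) ^ 2 ≤ ke.2 := h ke List.mem_cons_self

theorem Good.pos {ke : ℕ × ℕ} {L : List (ℕ × ℕ)} (h : Good (ke :: L)) : 0 < ke.2 := by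
  obtain ⟨h1, h2⟩ := h.head
  have h3 : 1 ≤ (2 * ke.1 - 1) ^ 2 := Nat.one_le_pow _ _ (by omega)
  omega

theorem Good.prod_pos {L : List (ℕ × ℕ)} (h : Good L) : 0 < (L.map Prod.snd).prod := by
  induction L with
  | nil => simp
  | cons ke L ih =>
    rw [List.map_cons, List.prod_cons]
    exact Nat.mul_pos h.pos (ih h.tail)

theorem gate_hom {m : ℕ} {L : List (ℕ × ℕ)} : ∀ {p : MvPolynomial (Fin m) ℂ}, Gate L p →
    p.IsHomogeneous (L.map Prod.snd).prod := by
  induction L with
  | nil =>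
    rintro p ⟨a, rfl⟩
    apply IsHomogeneous.sum
    intro j _
    have := (isHomogeneous_C (Fin m) (a j)).mul (isHomogeneous_X ℂ j)
    simpa using this
  | cons ke L ih =>
    rintro p ⟨c, g, hg, rfl⟩
    apply IsHomogeneous.sum
    intro i _
    have h1 := (isHomogeneous_C (Fin m) (c i)).mul ((ih (hg i)).pow ke.2)
    rw [zero_add] at h1
    rw [List.map_cons, List.prod_cons, mul_comm ke.2]
    exact h1

theorem sum_hom {m s e d : ℕ} (c : Fin s → ℂ) (g : Fin s → MvPolynomial (Fin m) ℂ)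
    (hg : ∀ i, (g i).IsHomogeneous d) : (∑ i, C (c i) * g i ^ e).IsHomogeneous (e * d) := by
  apply IsHomogeneous.sum
  intro i _
  have h1 := (isHomogeneous_C (Fin m) (c i)).mul ((hg i).pow e)
  rw [zero_add] at h1
  rw [mul_comm e]
  exact h1

theorem Tower.hom {m : ℕ} {F : MvPolynomial (Fin m) ℂ} (h : Tower F) :
    ∃ d, F.IsHomogeneous d := by
  obtain ⟨s, e, L, c, g, -, -, -, hg, rfl⟩ := h
  exact ⟨_, sum_hom c g fun i => gate_hom (hg i)⟩

theorem TowerLog.hom {m : ℕ} {Q : MvPolynomial (Fin m) ℂ} {d : ℕ} (h : TowerLog Q d) :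
    Q.IsHomogeneous d := by
  obtain ⟨s, e, L, c, g, -, -, -, hg, rfl, rfl⟩ := h
  exact sum_hom c g fun i => gate_hom (hg i)

theorem TowerLog.pos {m : ℕ} {Q : MvPolynomial (Fin m) ℂ} {d : ℕ} (h : TowerLog Q d) : 0 < d := by
  obtain ⟨s, e, L, c, g, he, -, hL, -, -, rfl⟩ := h
  exact Nat.mul_pos he hL.prod_pos

/-- gates are stable under renaming variables by linear forms: adding variables -/
theorem gate_rename {m m' : ℕ} (f : Fin m → Fin m') {L : List (ℕ × ℕ)} :
    ∀ {p : MvPolynomial (Fin m) ℂ}, Gate L p → Gate L (rename f p) := by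
  induction L with
  | nil =>
    rintro p ⟨a, rfl⟩
    refine ⟨fun k => ∑ j, if f j = k then a j else 0, ?_⟩
    rw [map_sum]
    simp only [map_mul, rename_C, rename_X, map_sum, Finset.sum_mul]
    rw [Finset.sum_comm]
    refine Finset.sum_congr rfl fun j _ => ?_
    rw [Finset.sum_eq_single (f j)]
    · rw [if_pos rfl]
    · intro b _ hb
      rw [if_neg (Ne.symm hb), map_zero, zero_mul]
    · intro h
      exact absurd (Finset.mem_univ _) h
  | cons ke L ih =>
    rintro p ⟨c, g, hg, rfl⟩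
    refine ⟨c, fun i => rename f (g i), fun i => ih (hg i), ?_⟩
    rw [map_sum]
    simp only [map_mul, rename_C, map_pow]

/-- powers of a linear form are gates -/
theorem gate_pow {m : ℕ} (j : Fin m) {L : List (ℕ × ℕ)} (hL : Good L) :
    Gate L ((X j : MvPolynomial (Fin m) ℂ) ^ (L.map Prod.snd).prod) := by
  induction L with
  | nil =>
    refine ⟨fun k => if k = j then 1 else 0, ?_⟩
    rw [Finset.sum_eq_single j]
    · simp
    · intro b _ hb
      simp [hb]
    · intro h
      exact absurd (Finset.mem_univ _) h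
  | cons ke L ih =>
    obtain ⟨h1, -⟩ := hL.head
    have hne : Nonempty (Fin ke.1) := ⟨⟨0, h1⟩⟩
    let i0 : Fin ke.1 := ⟨0, h1⟩
    refine ⟨fun i => if i = i0 then 1 else 0, fun _ => X j ^ (L.map Prod.snd).prod,
      fun _ => ih hL.tail, ?_⟩
    rw [Finset.sum_eq_single i0]
    · simp only [if_true, map_one, one_mul]
      rw [← pow_mul, List.map_cons, List.prod_cons, mul_comm ke.2]
    · intro b _ hb
      simp [hb]
    · intro h
      exact absurd (Finset.mem_univ _) h

end Pool.Agent.TH710.NW
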