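import Pool.Agent.TH710.NW.Defs
import Pool.Agent.H159R3.War.LogCurve

/-!
Relations given by towers between entire functions are preserved by linear functionals.
-/

set_option autoImplicit false

namespace Pool.Agent.TH710.NW

open MvPolynomial

variable {n m : ℕ}

theorem eval_diff {φ : Fin m → ℂ → ℂ} (hφ : ∀ j, Differentiable ℂ (φ j))
    (P : MvPolynomial (Fin m) ℂ) : Differentiable ℂ (fun z => eval (fun j => φ j z) P) := by
  have : (fun z => eval (fun j => φ j z) P)
      = fun z => ∑ α ∈ P.support, P.coeff α * ∏ j, φ j z ^ α j := by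
    funext z
    rw [eval_eq']
  rw [this]
  apply Differentiable.fun_sum
  intro α _
  apply Differentiable.const_mul
  apply Differentiable.fun_finset_prod
  intro j _
  exact (hφ j).pow _

theorem eval_sum_pow {s e : ℕ} (c : Fin s → ℂ) (g : Fin s → MvPolynomial (Fin m) ℂ)
    (y : Fin m → ℂ) : eval y (∑ i, C (c i) * g i ^ e) = ∑ i, c i * eval y (g i) ^ e := by
  rw [map_sum]
  refine Finset.sum_congr rfl fun i _ => ?_
  rw [map_mul, eval_C, map_pow]

theorem eval_lin (a : Fin m → ℂ) (y : Fin m → ℂ) :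
    eval y (∑ j, C (a j) * X j) = ∑ j, a j * y j := by
  rw [map_sum]
  refine Finset.sum_congr rfl fun i _ => ?_
  rw [map_mul, eval_C, eval_X]

/-- Proportionality of gates along an entire curve is preserved by specialisations which respect
the linear relations. -/
theorem gate_spec (φ : Fin m → ℂ → ℂ) (hφ : ∀ j, Differentiable ℂ (φ j)) (y : Fin m → ℂ)
    (hy : ∀ a : Fin m → ℂ, (∀ z, ∑ j, a j * φ j z = 0) → ∑ j, a j * y j = 0)
    (L : List (ℕ × ℕ)) : Good L → ∀ p q : MvPolynomial (Fin m) ℂ, Gate L p → Gate L q →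
      ∀ a b : ℂ, (∀ z, a * eval (fun j => φ j z) p + b * eval (fun j => φ j z) q = 0) →
        a * eval y p + b * eval y q = 0 := by
  induction L with
  | nil =>
    rintro - p q ⟨α, rfl⟩ ⟨β, rfl⟩ a b h
    have h1 := hy (fun j => a * α j + b * β j) (fun z => by
      rw [← h z, eval_lin, eval_lin, Finset.mul_sum, Finset.mul_sum, ← Finset.sum_add_distrib]
      exact Finset.sum_congr rfl fun j _ => by ring)
    rw [eval_lin, eval_lin, ← h1, Finset.mul_sum, Finset.mul_sum, ← Finset.sum_add_distrib]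
    exact Finset.sum_congr rfl fun j _ => by ring
  | cons ke L ih =>
    rintro hL p q ⟨c, g, hg, rfl⟩ ⟨c', g', hg', rfl⟩ a b h
    have hi := ih hL.tail
    let G : Fin ke.1 ⊕ Fin ke.1 → MvPolynomial (Fin m) ℂ := Sum.elim g g'
    have hG : ∀ i, Gate L (G i) := by
      rintro (i | i)
      · exact hg i
      · exact hg' i
    let cc : Fin ke.1 ⊕ Fin ke.1 → ℂ := Sum.elim (fun i => a * c i) (fun i => b * c' i)
    have hsum : ∀ v : Fin m → ℂ, ∑ i, cc i * eval v (G i) ^ ke.2
        = a * eval v (∑ i, C (c i) * g i ^ ke.2) + b * eval v (∑ i, C (c' i) * g' i ^ ke.2) := by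
      intro v
      rw [eval_sum_pow, eval_sum_pow, Fintype.sum_sum_type, Finset.mul_sum, Finset.mul_sum]
      congr 1
      · exact Finset.sum_congr rfl fun i _ => by simp only [cc, G, Sum.elim_inl]; ring
      · exact Finset.sum_congr rfl fun i _ => by simp only [cc, G, Sum.elim_inr]; ring
    have h1 := Pool.Agent.H159R3.Toric.spec_sum (N := ke.2) hL.pos
      (fun i z => eval (fun j => φ j z) (G i)) (fun i => eval_diff hφ (G i))
      (fun i => eval y (G i))
      (fun i h0 => by
        have := hi (G i) (G i) (hG i) (hG i) 1 0 (fun z => by rw [h0 z]; ring)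
        simpa using this)
      (fun i j α h0 => by
        have := hi (G i) (G j) (hG i) (hG j) 1 (-α) (fun z => by rw [h0 z]; ring)
        linear_combination this)
      Finset.univ (by
        rw [Finset.card_univ, Fintype.card_sum, Fintype.card_fin, ← two_mul]
        exact hL.head.2) cc (fun z => by rw [hsum, h z])
    rw [hsum] at h1
    exact h1

theorem tower_spec {F : MvPolynomial (Fin m) ℂ} (hF : Tower F) (φ : Fin m → ℂ → ℂ)
    (hφ : ∀ j, Differentiable ℂ (φ j)) (y : Fin m → ℂ)
    (hy : ∀ a : Fin m → ℂ, (∀ z, ∑ j, a j * φ j z = 0) → ∑ j, a j * y j = 0)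
    (h : ∀ z, eval (fun j => φ j z) F = 0) : eval y F = 0 := by
  obtain ⟨s, e, L, c, g, he, hs, hL, hg, rfl⟩ := hF
  have hi := gate_spec φ hφ y hy L hL
  have h1 := Pool.Agent.H159R3.Toric.spec_sum (N := e) he
    (fun i z => eval (fun j => φ j z) (g i)) (fun i => eval_diff hφ (g i))
    (fun i => eval y (g i))
    (fun i h0 => by
      have := hi (g i) (g i) (hg i) (hg i) 1 0 (fun z => by rw [h0 z]; ring)
      simpa using this)
    (fun i j α h0 => by
      have := hi (g i) (g j) (hg i) (hg j) 1 (-α) (fun z => by rw [h0 z]; ring)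
      linear_combination this)
    Finset.univ (by rw [Finset.card_univ, Fintype.card_fin]; exact hs) c (fun z => by
      rw [← h z, eval_sum_pow])
  rw [eval_sum_pow, h1]

/-- Adding the root of a form as a new coordinate. -/
theorem TowerLog.ext {Q : MvPolynomial (Fin m) ℂ} {d : ℕ} (h : TowerLog Q d) :
    Tower (rename Fin.castSucc Q - X (Fin.last m) ^ d : MvPolynomial (Fin (m + 1)) ℂ) := by
  obtain ⟨s, e, L, c, g, he, hs, hL, hg, rfl, rfl⟩ := h
  refine ⟨s + 1, e, L, Fin.snoc c (-1),
    Fin.snoc (fun i => rename Fin.castSucc (g i)) (X (Fin.last m) ^ (L.map Prod.snd).prod),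
    he, ?_, hL, ?_, ?_⟩
  · rw [Nat.add_sub_cancel]
    exact hs
  · intro i
    refine Fin.lastCases ?_ (fun i => ?_) i
    · rw [Fin.snoc_last]
      exact gate_pow _ hL
    · rw [Fin.snoc_castSucc]
      exact gate_rename _ (hg i)
  · rw [Fin.sum_univ_castSucc]
    simp only [Fin.snoc_castSucc, Fin.snoc_last]
    rw [map_sum]
    simp only [map_mul, rename_C, map_pow]
    rw [← pow_mul, mul_comm (L.map Prod.snd).prod e, map_neg, map_one, neg_one_mul, sub_eq_add_neg]

theorem eval_ext (Q : MvPolynomial (Fin m) ℂ) (d : ℕ) (y : Fin m → ℂ) (r : ℂ) :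
    eval (Fin.snoc y r : Fin (m + 1) → ℂ) (rename Fin.castSucc Q - X (Fin.last m) ^ d)
      = eval y Q - r ^ d := by
  rw [map_sub, eval_rename, map_pow, eval_X, Fin.snoc_last]
  congr 2
  congr 1
  funext j
  simp only [Function.comp_apply, Fin.snoc_castSucc]

/-- Relations given by `F` between entire functions are preserved by linear functionals. -/
def EStab (F : MvPolynomial (Fin m) ℂ) : Prop :=
  ∀ f : ℂ → Fin m → ℂ, Differentiable ℂ f → (∀ z, eval (f z) F = 0) →
    ∀ Φ : (ℂ → ℂ) →ₗ[ℂ] ℂ, eval (fun j => Φ (fun z => f z j)) F = 0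

/-- The same for the relation `Q = r ^ d`. -/
def EStabLog (Q : MvPolynomial (Fin m) ℂ) (d : ℕ) : Prop :=
  ∀ (f : ℂ → Fin m → ℂ) (r : ℂ → ℂ), Differentiable ℂ f → Differentiable ℂ r →
    (∀ z, r z ^ d = eval (f z) Q) →
    ∀ Φ : (ℂ → ℂ) →ₗ[ℂ] ℂ, eval (fun j => Φ (fun z => f z j)) Q = Φ r ^ d

theorem Tower.estab {F : MvPolynomial (Fin m) ℂ} (hF : Tower F) : EStab F := by
  intro f hf h Φ
  have hfj : ∀ j, Differentiable ℂ (fun z => f z j) := fun j => by
    rw [differentiable_pi] at hf
    exact hf j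
  refine tower_spec hF (fun j z => f z j) hfj _ (fun a ha => ?_) h
  have h1 : (∑ j, a j • (fun z => f z j) : ℂ → ℂ) = 0 := by
    funext z
    rw [Finset.sum_apply]
    simpa using ha z
  have h2 := congrArg Φ h1
  rw [map_sum, map_zero] at h2
  simpa using h2

theorem TowerLog.estab {Q : MvPolynomial (Fin m) ℂ} {d : ℕ} (hQ : TowerLog Q d) :
    EStabLog Q d := by
  intro f r hf hr h Φ
  have h1 := hQ.ext.estab (fun z => Fin.snoc (f z) (r z)) (by
    rw [differentiable_pi] at hf ⊢
    intro j
    refine Fin.lastCases ?_ (fun j => ?_) j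
    · simp only [Fin.snoc_last]
      exact hr
    · simp only [Fin.snoc_castSucc]
      exact hf j) (fun z => by rw [eval_ext, h z, sub_self]) Φ
  have h2 : (fun j => Φ (fun z => (Fin.snoc (f z) (r z) : Fin (m + 1) → ℂ) j))
      = Fin.snoc (fun j => Φ (fun z => f z j)) (Φ r) := by
    funext j
    refine Fin.lastCases ?_ (fun j => ?_) j
    · simp only [Fin.snoc_last]
    · simp only [Fin.snoc_castSucc]
  rw [h2, eval_ext, sub_eq_zero] at h1
  exact h1

end Pool.Agent.TH710.NW
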