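import Pool.Agent.TH710.NW.Ent
import Pool.Agent.W603.BP.WFun

/-!
Relations given by towers between germs at an essential singularity are preserved by linear
operators over the field of meromorphic germs.
-/

set_option autoImplicit false

namespace Pool.Agent.TH710.NW

open MvPolynomial Filter Metric Topology Pool.Agent.W603.BP Pool.Agent.W603.BPW

variable {n m : ℕ}

theorem pow_spec {N : ℕ} (hN : 0 < N) {ι : Type} [DecidableEq ι] (g : ι → ℂ → ℂ)
    (hg : ∀ a, Pun (g a)) (x : ι → ℂ → ℂ)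
    (hx0 : ∀ a, (∀ᶠ w in 𝓝[≠] (0 : ℂ), g a w = 0) → ∀ᶠ w in 𝓝[≠] (0 : ℂ), x a w = 0)
    (hx : ∀ a b (ρ : ℂ → ℂ), MeromorphicAt ρ 0 → (∀ᶠ w in 𝓝[≠] (0 : ℂ), g a w = ρ w * g b w) →
      ∀ᶠ w in 𝓝[≠] (0 : ℂ), x a w = ρ w * x b w)
    (A : Finset ι) (hA : (A.card - 1) ^ 2 ≤ N) (c : ι → ℂ → ℂ) (hc : ∀ a, MeromorphicAt (c a) 0)
    (h : ∀ᶠ w in 𝓝[≠] (0 : ℂ), ∑ a ∈ A, c a w * g a w ^ N = 0) :
    ∀ᶠ w in 𝓝[≠] (0 : ℂ), ∑ a ∈ A, c a w * x a w ^ N = 0 := by
  classical
  let col : ι → Set ι := fun a => {b | Gr (g b) (g a) ∧ Gr (g a) (g b)}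
  have hsym : ∀ a b, Nz (g a) → Nz (g b) → Gr (g a) (g b) → Gr (g b) (g a) := by
    intro a b ha hb hab
    exact ((growth_mero (hg a) (hg b) hb hab).symm ha).gr
  have hcol : ∀ a b, Nz (fun w => g a w ^ N) → Nz (fun w => g b w ^ N) →
      Gr (fun w => g a w ^ N) (fun w => g b w ^ N) → col a = col b := by
    intro a b ha hb hab
    have ha' : Nz (g a) := by
      intro h0
      apply ha
      filter_upwards [h0] with w hw
      rw [hw, zero_pow hN.ne']
    have hb' : Nz (g b) := by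
      intro h0
      apply hb
      filter_upwards [h0] with w hw
      rw [hw, zero_pow hN.ne']
    have h1 := gr_of_pow hN hab
    have h2 := hsym a b ha' hb' h1
    ext x
    exact ⟨fun hx => ⟨hx.1.trans h1, h2.trans hx.2⟩, fun hx => ⟨hx.1.trans h2, h1.trans hx.2⟩⟩
  have hmain := color_sums hN (fun a w => g a w ^ N) (fun a => (hg a).pow N)
    (fun a => ⟨fun t => g a (t ^ N), (hg a).comp_pow hN, Eventually.of_forall fun _ => rfl⟩)
    col hcol A hA c hc h
  have hcls : ∀ v, ∀ᶠ w in 𝓝[≠] (0 : ℂ),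
      ∑ a ∈ A.filter (fun a => col a = v), c a w * x a w ^ N = 0 := by
    intro v
    have hv := hmain v
    by_cases hex : ∃ a1 ∈ A.filter (fun a => col a = v), Nz (g a1)
    · obtain ⟨a1, ha1, hn1⟩ := hex
      have hrel : ∀ a ∈ A.filter (fun a => col a = v), MRel (g a) (g a1) := by
        intro a ha
        have h1 : col a = col a1 :=
          (Finset.mem_filter.mp ha).2.trans (Finset.mem_filter.mp ha1).2.symm
        have h2 : a ∈ col a := ⟨Gr.refl _, Gr.refl _⟩
        rw [h1] at h2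
        exact growth_mero (hg a) (hg a1) hn1 h2.1
      choose! ρ hρ hρe using hrel
      have hall : ∀ᶠ w in 𝓝[≠] (0 : ℂ), ∀ a ∈ A.filter (fun a => col a = v),
          g a w = ρ a w * g a1 w := (Filter.eventually_all_finset _).mpr hρe
      have hallx : ∀ᶠ w in 𝓝[≠] (0 : ℂ), ∀ a ∈ A.filter (fun a => col a = v),
          x a w = ρ a w * x a1 w :=
        (Filter.eventually_all_finset _).mpr fun a ha => hx a a1 (ρ a) (hρ a ha) (hρe a ha)
      let R : ℂ → ℂ := fun w => ∑ a ∈ A.filter (fun a => col a = v), c a w * ρ a w ^ N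
      have hR : MeromorphicAt R 0 := by
        have : R = ∑ a ∈ A.filter (fun a => col a = v), fun w => c a w * ρ a w ^ N := by
          funext w
          simp only [R, Finset.sum_apply]
        rw [this]
        apply MeromorphicAt.sum
        intro a ha
        exact (hc a).fun_mul ((hρ a ha).fun_pow N)
      have hR0 : ∀ᶠ w in 𝓝[≠] (0 : ℂ), R w = 0 := by
        have h1 : ∀ᶠ w in 𝓝[≠] (0 : ℂ), R w * g a1 w ^ N = 0 := by
          filter_upwards [hv, hall] with w h2 h3
          rw [← h2]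
          simp only [R]
          rw [Finset.sum_mul]
          refine Finset.sum_congr rfl fun a ha => ?_
          rw [h3 a ha]
          ring
        rcases pun_mul_zero (Pun.mero hR) ((hg a1).pow N) h1 with h2 | h2
        · exact h2
        · exact absurd h2 (hn1.pow N)
      filter_upwards [hR0, hallx] with w h2 h3
      have h4 : ∑ a ∈ A.filter (fun a => col a = v), c a w * x a w ^ N = R w * x a1 w ^ N := by
        simp only [R]
        rw [Finset.sum_mul]
        refine Finset.sum_congr rfl fun a ha => ?_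
        rw [h3 a ha]
        ring
      rw [h4, h2, zero_mul]
    · have h1 : ∀ᶠ w in 𝓝[≠] (0 : ℂ), ∀ a ∈ A.filter (fun a => col a = v), x a w = 0 := by
        refine (Filter.eventually_all_finset _).mpr fun a ha => hx0 a ?_
        exact not_not.mp fun h0 => hex ⟨a, ha, h0⟩
      filter_upwards [h1] with w h2
      refine Finset.sum_eq_zero fun a ha => ?_
      rw [h2 a ha, zero_pow hN.ne', mul_zero]
  have hall : ∀ᶠ w in 𝓝[≠] (0 : ℂ), ∀ v ∈ A.image col,
      ∑ a ∈ A.filter (fun a => col a = v), c a w * x a w ^ N = 0 :=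
    (Filter.eventually_all_finset _).mpr fun v _ => hcls v
  filter_upwards [hall] with w hw
  rw [← Finset.sum_fiberwise_of_maps_to (t := A.image col) (g := col)
    (fun a ha => Finset.mem_image_of_mem col ha)]
  exact Finset.sum_eq_zero hw

theorem eval_fun_an' {y : Fin m → ℂ → ℂ} {w : ℂ} (hy : ∀ j, AnalyticAt ℂ (y j) w)
    (G : MvPolynomial (Fin m) ℂ) : AnalyticAt ℂ (fun z => eval (fun j => y j z) G) w := by
  simp only [eval_eq']
  apply Finset.analyticAt_fun_sum
  intro α _
  apply AnalyticAt.fun_mul analyticAt_const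
  apply Finset.analyticAt_fun_prod
  intro j _
  exact (hy j).fun_pow _

theorem pun_eval' {y : Fin m → ℂ → ℂ} (hy : ∀ j, Pun (y j))
    (G : MvPolynomial (Fin m) ℂ) : Pun (fun z => eval (fun j => y j z) G) := by
  have h : ∀ᶠ w in 𝓝[≠] (0 : ℂ), ∀ j, AnalyticAt ℂ (y j) w := by
    rw [Filter.eventually_all]
    exact hy
  filter_upwards [h] with w hw
  exact eval_fun_an' hw G

theorem gate_gspec (φ y : Fin m → ℂ → ℂ) (hφ : ∀ j, Pun (φ j))
    (hy : ∀ ρ : Fin m → ℂ → ℂ, (∀ j, MeromorphicAt (ρ j) 0) →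
      (∀ᶠ w in 𝓝[≠] (0 : ℂ), ∑ j, ρ j w * φ j w = 0) →
        ∀ᶠ w in 𝓝[≠] (0 : ℂ), ∑ j, ρ j w * y j w = 0)
    (L : List (ℕ × ℕ)) : Good L → ∀ p q : MvPolynomial (Fin m) ℂ, Gate L p → Gate L q →
      ∀ ρ σ : ℂ → ℂ, MeromorphicAt ρ 0 → MeromorphicAt σ 0 →
      (∀ᶠ w in 𝓝[≠] (0 : ℂ), ρ w * eval (fun j => φ j w) p + σ w * eval (fun j => φ j w) q = 0) →
      ∀ᶠ w in 𝓝[≠] (0 : ℂ), ρ w * eval (fun j => y j w) p + σ w * eval (fun j => y j w) q = 0 := by
  classical
  induction L with
  | nil =>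
    rintro - p q ⟨α, rfl⟩ ⟨β, rfl⟩ ρ σ hρ hσ h
    have key : ∀ (v : Fin m → ℂ) (w : ℂ), ∑ j, (ρ w * α j + σ w * β j) * v j
        = ρ w * eval v (∑ j, C (α j) * X j) + σ w * eval v (∑ j, C (β j) * X j) := by
      intro v w
      rw [eval_lin, eval_lin, Finset.mul_sum, Finset.mul_sum, ← Finset.sum_add_distrib]
      exact Finset.sum_congr rfl fun j _ => by ring
    have h1 := hy (fun j w => ρ w * α j + σ w * β j)
      (fun j => (hρ.fun_mul (MeromorphicAt.const _ 0)).fun_add
        (hσ.fun_mul (MeromorphicAt.const _ 0))) (by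
        filter_upwards [h] with w hw
        rw [key, hw])
    filter_upwards [h1] with w hw
    rw [← key, hw]
  | cons ke L ih =>
    rintro hL p q ⟨c, g, hg, rfl⟩ ⟨c', g', hg', rfl⟩ ρ σ hρ hσ h
    have hi := ih hL.tail
    let G : Fin ke.1 ⊕ Fin ke.1 → MvPolynomial (Fin m) ℂ := Sum.elim g g'
    have hG : ∀ i, Gate L (G i) := by
      rintro (i | i)
      · exact hg i
      · exact hg' i
    let cc : Fin ke.1 ⊕ Fin ke.1 → ℂ → ℂ :=
      Sum.elim (fun i w => ρ w * c i) (fun i w => σ w * c' i)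
    have hcc : ∀ i, MeromorphicAt (cc i) 0 := by
      rintro (i | i)
      · exact hρ.fun_mul (MeromorphicAt.const _ 0)
      · exact hσ.fun_mul (MeromorphicAt.const _ 0)
    have hsum : ∀ (v : Fin m → ℂ) (w : ℂ), ∑ i, cc i w * eval v (G i) ^ ke.2
        = ρ w * eval v (∑ i, C (c i) * g i ^ ke.2)
          + σ w * eval v (∑ i, C (c' i) * g' i ^ ke.2) := by
      intro v w
      rw [eval_sum_pow, eval_sum_pow, Fintype.sum_sum_type, Finset.mul_sum, Finset.mul_sum]
      congr 1
      · exact Finset.sum_congr rfl fun i _ => by simp only [cc, G, Sum.elim_inl]; ring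
      · exact Finset.sum_congr rfl fun i _ => by simp only [cc, G, Sum.elim_inr]; ring
    have h1 := pow_spec (N := ke.2) hL.pos
      (fun i z => eval (fun j => φ j z) (G i)) (fun i => pun_eval' hφ (G i))
      (fun i z => eval (fun j => y j z) (G i))
      (fun i h0 => by
        have := hi (G i) (G i) (hG i) (hG i) (fun _ => 1) (fun _ => 0)
          (MeromorphicAt.const _ 0) (MeromorphicAt.const _ 0) (by
            filter_upwards [h0] with w hw
            rw [hw]; ring)
        filter_upwards [this] with w hw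
        simpa using hw)
      (fun i j α hα h0 => by
        have := hi (G i) (G j) (hG i) (hG j) (fun _ => 1) (fun w => -α w)
          (MeromorphicAt.const _ 0) hα.neg (by
            filter_upwards [h0] with w hw
            rw [hw]; ring)
        filter_upwards [this] with w hw
        linear_combination hw)
      Finset.univ (by
        rw [Finset.card_univ, Fintype.card_sum, Fintype.card_fin, ← two_mul]
        exact hL.head.2) cc hcc (by
        filter_upwards [h] with w hw
        rw [hsum, hw])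
    filter_upwards [h1] with w hw
    rw [← hsum, hw]

theorem tower_gspec {F : MvPolynomial (Fin m) ℂ} (hF : Tower F) (φ y : Fin m → ℂ → ℂ)
    (hφ : ∀ j, Pun (φ j))
    (hy : ∀ ρ : Fin m → ℂ → ℂ, (∀ j, MeromorphicAt (ρ j) 0) →
      (∀ᶠ w in 𝓝[≠] (0 : ℂ), ∑ j, ρ j w * φ j w = 0) →
        ∀ᶠ w in 𝓝[≠] (0 : ℂ), ∑ j, ρ j w * y j w = 0)
    (h : ∀ᶠ w in 𝓝[≠] (0 : ℂ), eval (fun j => φ j w) F = 0) :
    ∀ᶠ w in 𝓝[≠] (0 : ℂ), eval (fun j => y j w) F = 0 := by
  classical
  obtain ⟨s, e, L, c, g, he, hs, hL, hg, rfl⟩ := hF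
  have hi := gate_gspec φ y hφ hy L hL
  have h1 := pow_spec (N := e) he
    (fun i z => eval (fun j => φ j z) (g i)) (fun i => pun_eval' hφ (g i))
    (fun i z => eval (fun j => y j z) (g i))
    (fun i h0 => by
      have := hi (g i) (g i) (hg i) (hg i) (fun _ => 1) (fun _ => 0)
        (MeromorphicAt.const _ 0) (MeromorphicAt.const _ 0) (by
          filter_upwards [h0] with w hw
          rw [hw]; ring)
      filter_upwards [this] with w hw
      simpa using hw)
    (fun i j α hα h0 => by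
      have := hi (g i) (g j) (hg i) (hg j) (fun _ => 1) (fun w => -α w)
        (MeromorphicAt.const _ 0) hα.neg (by
          filter_upwards [h0] with w hw
          rw [hw]; ring)
      filter_upwards [this] with w hw
      linear_combination hw)
    Finset.univ (by rw [Finset.card_univ, Fintype.card_fin]; exact hs) (fun i _ => c i)
    (fun i => MeromorphicAt.const _ 0) (by
      filter_upwards [h] with w hw
      rw [eval_sum_pow] at hw
      exact hw)
  filter_upwards [h1] with w hw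
  rw [eval_sum_pow, hw]

/-- Relations given by `F` between germs are preserved by linear operators. -/
def GStab (F : MvPolynomial (Fin m) ℂ) : Prop :=
  ∀ φ y : Fin m → ℂ → ℂ, (∀ j, Pun (φ j)) →
    (∀ᶠ w in 𝓝[≠] (0 : ℂ), eval (fun j => φ j w) F = 0) →
    ∀ Φ : Gm →ₗ[MG] Gm, (∀ j, gm (y j) = Φ (gm (φ j))) →
      ∀ᶠ w in 𝓝[≠] (0 : ℂ), eval (fun j => y j w) F = 0

/-- The same for the relation `Q = r ^ d`. -/
def GStabLog (Q : MvPolynomial (Fin m) ℂ) (d : ℕ) : Prop :=
  ∀ φ y : Fin m → ℂ → ℂ, (∀ j, Pun (φ j)) → ∀ r ρ : ℂ → ℂ, Pun r →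
    (∀ᶠ w in 𝓝[≠] (0 : ℂ), r w ^ d = eval (fun j => φ j w) Q) →
    ∀ Φ : Gm →ₗ[MG] Gm, (∀ j, gm (y j) = Φ (gm (φ j))) → gm ρ = Φ (gm r) →
      ∀ᶠ w in 𝓝[≠] (0 : ℂ), eval (fun j => y j w) Q = ρ w ^ d

theorem Tower.gstab {F : MvPolynomial (Fin m) ℂ} (hF : Tower F) : GStab F := by
  intro φ y hφ h Φ hy
  refine tower_gspec hF φ y hφ (fun ρ hρ h0 => ?_) h
  have h1 : gm (fun w => ∑ j, ρ j w * φ j w) = 0 := gm_eq_zero.mpr h0
  have h2 : gm (fun w => ∑ j, ρ j w * y j w) = 0 := by
    rw [gm_sum] at h1 ⊢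
    have h3 := congrArg Φ h1
    rw [map_sum, map_zero] at h3
    rw [← h3]
    refine Finset.sum_congr rfl fun j _ => ?_
    rw [gm_mul, hy j, lin_mul Φ (hρ j)]
  exact gm_eq_zero.mp h2

theorem TowerLog.gstab {Q : MvPolynomial (Fin m) ℂ} {d : ℕ} (hQ : TowerLog Q d) :
    GStabLog Q d := by
  intro φ y hφ r ρ hr h Φ hy hρ
  have key : ∀ (φ : Fin m → ℂ → ℂ) (r : ℂ → ℂ) (w : ℂ),
      (fun j => (Fin.snoc φ r : Fin (m + 1) → ℂ → ℂ) j w) = Fin.snoc (fun j => φ j w) (r w) := by
    intro φ r w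
    funext j
    refine Fin.lastCases ?_ (fun j => ?_) j
    · simp only [Fin.snoc_last]
    · simp only [Fin.snoc_castSucc]
  have h1 := hQ.ext.gstab (Fin.snoc φ r) (Fin.snoc y ρ)
    (by
      intro j
      refine Fin.lastCases ?_ (fun j => ?_) j
      · simp only [Fin.snoc_last]
        exact hr
      · simp only [Fin.snoc_castSucc]
        exact hφ j)
    (by
      filter_upwards [h] with w hw
      rw [key, eval_ext, ← hw, sub_self]) Φ
    (by
      intro j
      refine Fin.lastCases ?_ (fun j => ?_) j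
      · simp only [Fin.snoc_last]
        exact hρ
      · simp only [Fin.snoc_castSucc]
        exact hy j)
  filter_upwards [h1] with w hw
  rw [key, eval_ext, sub_eq_zero] at hw
  exact hw

end Pool.Agent.TH710.NW
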