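import Pool.Agent.TH710.NW.Germ
import Pool.Agent.H159R3.War.LogFinal

/-!
Punctured lines through the points of entire curves in varieties given by towers.
-/

set_option autoImplicit false

namespace Pool.Agent.TH710.NW

open MvPolynomial Pool.Agent.H159R3.War Pool.Agent.H159R3.GGL

variable {n : ℕ} {ι κ : Type}

/-- A form whose relations are preserved by linear functionals. -/
structure Stab (F : MvPolynomial (Fin (n + 1)) ℂ) : Prop where
  hom : ∃ d, F.IsHomogeneous d
  e : EStab F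
  g : GStab F

/-- A form of degree `d` such that the relations `Q = r ^ d` are preserved by linear
functionals. -/
structure StabLog (Q : MvPolynomial (Fin (n + 1)) ℂ) (d : ℕ) : Prop where
  pos : 0 < d
  hom : Q.IsHomogeneous d
  e : EStabLog Q d
  g : GStabLog Q d

theorem Tower.stab {F : MvPolynomial (Fin (n + 1)) ℂ} (h : Tower F) : Stab F :=
  ⟨h.hom, h.estab, h.gstab⟩

theorem TowerLog.stab {Q : MvPolynomial (Fin (n + 1)) ℂ} {d : ℕ} (h : TowerLog Q d) :
    StabLog Q d :=
  ⟨h.pos, h.hom, h.estab, h.gstab⟩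

/-- A punctured line through each point of an entire curve -/
theorem log_line [Finite κ] (F : ι → MvPolynomial (Fin (n + 1)) ℂ) (hF : ∀ i, Stab (F i))
    (Q : κ → MvPolynomial (Fin (n + 1)) ℂ) (d : κ → ℕ) (hQ : ∀ j, StabLog (Q j) (d j))
    (f : ℂ → Fin (n + 1) → ℂ) (hf : Differentiable ℂ f) (hfF : ∀ z i, eval (f z) (F i) = 0)
    (hfQ : ∀ z j, eval (f z) (Q j) ≠ 0) (z0 w : ℂ) (hw : LinearIndependent ℂ ![f z0, f w]) :
    ∃ (v : Fin (n + 1) → ℂ) (u : ℂ) (T : Set κ), LineIn F (f z0) v ∧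
      ∀ j (s t : ℂ), (j ∈ T → eval (s • f z0 + t • v) (Q j) = eval (f z0) (Q j) * (s + u * t) ^ d j) ∧
        (j ∉ T → eval (s • f z0 + t • v) (Q j) = eval (f z0) (Q j) * s ^ d j) := by
  classical
  have := Fintype.ofFinite κ
  have hd : ∀ j, 0 < d j := fun j => (hQ j).pos
  have hfj : ∀ j, Differentiable ℂ (fun z => f z j) := fun j => by
    rw [differentiable_pi] at hf
    exact hf j
  have hev : ∀ P : MvPolynomial (Fin (n + 1)) ℂ, Differentiable ℂ (fun z => eval (f z) P) := by
    intro P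
    have : (fun z => eval (f z) P) = fun z => ∑ α ∈ P.support, P.coeff α * ∏ j, f z j ^ α j := by
      funext z
      rw [eval_eq']
    rw [this]
    apply Differentiable.fun_sum
    intro α _
    apply Differentiable.const_mul
    apply Differentiable.fun_finset_prod
    intro j _
    exact (hfj j).pow _
  have hroot : ∀ j, ∃ r : ℂ → ℂ, Differentiable ℂ r ∧ ∀ z, r z ^ d j = eval (f z) (Q j) :=
    fun j => Pool.Agent.H159R3.Toric.root _ (hev (Q j)) (fun z => hfQ z j) (hd j)
  choose r hr hrQ using hroot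
  have hr0 : ∀ j z, r j z ≠ 0 := by
    intro j z h0
    apply hfQ z j
    rw [← hrQ, h0, zero_pow (hd j).ne']
  by_cases hall : ∃ j0 j1, ¬ ∃ a : ℂ, ∀ z, r j1 z = a * r j0 z
  · obtain ⟨j0, j1, hj⟩ := hall
    obtain ⟨σ, hσ⟩ := class_span r hr hr0 j0
    let Ψ : (ℂ → ℂ) →ₗ[ℂ] ℂ := σ.sum fun z c => c • LinearMap.proj z
    have hΨ : ∀ h : ℂ → ℂ, Ψ h = σ.sum fun z c => c * h z := by
      intro h
      simp only [Ψ, Finsupp.sum, LinearMap.sum_apply, LinearMap.smul_apply, LinearMap.proj_apply,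
        smul_eq_mul]
    let v : Fin (n + 1) → ℂ := fun j => Ψ (fun z => f z j)
    let Φ : ℂ → ℂ → (ℂ → ℂ) →ₗ[ℂ] ℂ := fun s t => s • LinearMap.proj z0 + t • Ψ
    have hΦ : ∀ s t (h : ℂ → ℂ), Φ s t h = s * h z0 + t * Ψ h := fun s t h => rfl
    have hP : ∀ s t : ℂ, (fun j => Φ s t (fun z => f z j)) = s • f z0 + t • v := fun s t => rfl
    have hQe : ∀ j (s t : ℂ), eval (s • f z0 + t • v) (Q j) = (s * r j z0 + t * Ψ (r j)) ^ d j := by
      intro j s t
      rw [← hP, (hQ j).e f (r j) hf (hr j) (hrQ j), hΦ]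
    have hj0 : Ψ (r j0) = r j0 0 := by
      rw [hΨ]
      exact (hσ j0).1 ⟨1, fun z => by rw [one_mul]⟩
    have hj1 : Ψ (r j1) = 0 := by
      rw [hΨ]
      exact (hσ j1).2 hj
    refine ⟨v, r j0 0 / r j0 z0, {j | ∃ a : ℂ, ∀ z, r j z = a * r j0 z}, ⟨?_, ?_⟩, ?_⟩
    · rw [LinearIndependent.pair_iff]
      intro s t hst
      have h0 : ∀ j, s * r j z0 + t * Ψ (r j) = 0 := by
        intro j
        have h1 := hQe j s t
        have h2 := hQe j 0 0
        rw [hst] at h1
        rw [zero_smul, zero_smul, add_zero] at h2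
        rw [h2, zero_mul, zero_mul, add_zero, zero_pow (hd j).ne'] at h1
        by_contra hne
        exact pow_ne_zero _ hne h1.symm
      have hs : s = 0 := by
        have h1 := h0 j1
        rw [hj1, mul_zero, add_zero] at h1
        exact (mul_eq_zero.mp h1).resolve_right (hr0 j1 z0)
      refine ⟨hs, ?_⟩
      have h1 := h0 j0
      rw [hj0, hs, zero_mul, zero_add] at h1
      exact (mul_eq_zero.mp h1).resolve_right (hr0 j0 0)
    · intro i s t
      rw [← hP]
      exact (hF i).e f hf (fun z => hfF z i) _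
    · intro j s t
      constructor
      · rintro ⟨a, ha⟩
        rw [hQe, hΨ, (hσ j).1 ⟨a, ha⟩, ← hrQ, ← mul_pow]
        congr 1
        rw [ha z0, ha 0]
        have := hr0 j0 z0
        field_simp
      · intro hjT
        rw [hQe, hΨ, (hσ j).2 hjT, ← hrQ, ← mul_pow]
        congr 1
        ring
  · push Not at hall
    let Φ : ℂ → ℂ → (ℂ → ℂ) →ₗ[ℂ] ℂ := fun s t => s • LinearMap.proj z0 + t • LinearMap.proj w
    have hΦ : ∀ s t (h : ℂ → ℂ), Φ s t h = s * h z0 + t * h w := by
      intro s t h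
      simp only [Φ, LinearMap.add_apply, LinearMap.smul_apply, LinearMap.proj_apply, smul_eq_mul]
    have hP : ∀ s t : ℂ, (fun j => Φ s t (fun z => f z j)) = s • f z0 + t • f w := by
      intro s t
      funext j
      rw [hΦ]
      simp only [Pi.add_apply, Pi.smul_apply, smul_eq_mul]
    have hQe : ∀ j (s t : ℂ), eval (s • f z0 + t • f w) (Q j)
        = (s * r j z0 + t * r j w) ^ d j := by
      intro j s t
      rw [← hP, (hQ j).e f (r j) hf (hr j) (hrQ j), hΦ]
    have hFe : ∀ i (s t : ℂ), eval (s • f z0 + t • f w) (F i) = 0 := by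
      intro i s t
      rw [← hP]
      exact (hF i).e f hf (fun z => hfF z i) _
    by_cases hne : Nonempty κ
    · obtain ⟨j0⟩ := hne
      refine ⟨f w, r j0 w / r j0 z0, Set.univ, ⟨hw, hFe⟩, ?_⟩
      intro j s t
      refine ⟨fun _ => ?_, fun h => absurd (Set.mem_univ j) h⟩
      obtain ⟨a, ha⟩ := hall j0 j
      rw [hQe, ← hrQ, ← mul_pow]
      congr 1
      rw [ha z0, ha w]
      have := hr0 j0 z0
      field_simp
    · exact ⟨f w, 0, Set.univ, ⟨hw, hFe⟩, fun j => absurd ⟨j⟩ hne⟩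

end Pool.Agent.TH710.NW
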