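import Pool.Agent.TH710.NW.Ent
import Pool.Agent.H159R3.GGL.Main

/-!
Towers over monomials: from entire curves to torus curves.
-/

set_option autoImplicit false

namespace Pool.Agent.TH710.NW

open MvPolynomial

variable {n m : ℕ}

/-- The gates of a tower over the monomials. `L` is the list of the pairs (number of summands,
exponent) of the levels, the outermost first. The gates over the empty list are the monomials with
coefficients, the gates over `(k, e) :: L` are the sums `∑ c_i g_i ^ e` with `k` summands, `g_i`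
gates over `L`. -/
def GateM : List (ℕ × ℕ) → MvPolynomial (Fin m) ℂ → Prop
  | [], p => ∃ (α : Fin m →₀ ℕ) (a : ℂ), p = monomial α a
  | ke :: L, p => ∃ (c : Fin ke.1 → ℂ) (g : Fin ke.1 → MvPolynomial (Fin m) ℂ),
      (∀ i, GateM L (g i)) ∧ p = ∑ i, C (c i) * g i ^ ke.2

/-- `F` is a nested sum of few high powers of monomials. -/
def TowerM (F : MvPolynomial (Fin m) ℂ) : Prop :=
  ∃ (s e : ℕ) (L : List (ℕ × ℕ)) (c : Fin s → ℂ) (g : Fin s → MvPolynomial (Fin m) ℂ),
    0 < e ∧ (s - 1) ^ 2 ≤ e ∧ Good L ∧ (∀ i, GateM L (g i)) ∧ F = ∑ i, C (c i) * g i ^ e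

theorem eval_mono (α : Fin m →₀ ℕ) (a : ℂ) (y : Fin m → ℂ) :
    eval y (monomial α a) = a * ∏ j, y j ^ α j := by
  rw [eval_monomial, Finsupp.prod_fintype _ _ (fun j => pow_zero _)]

section

variable (f : Fin m → ℂ → ℂ) (z0 : ℂ) (b : Fin m → ℤ) (t : ℂ)

theorem torus_mono (ht : t ≠ 0) (α : Fin m →₀ ℕ) :
    ∏ j, (f j z0 * t ^ b j) ^ α j = (∏ j, f j z0 ^ α j) * t ^ (∑ j, (α j : ℤ) * b j) := by
  have h1 : ∀ j, (f j z0 * t ^ b j) ^ α j = f j z0 ^ α j * t ^ ((α j : ℤ) * b j) := by
    intro j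
    rw [mul_pow, mul_comm (α j : ℤ), zpow_mul, zpow_natCast]
  simp only [h1]
  rw [Finset.prod_mul_distrib]
  congr 1
  have h2 : ∀ S : Finset (Fin m), ∏ j ∈ S, t ^ ((α j : ℤ) * b j) = t ^ (∑ j ∈ S, (α j : ℤ) * b j) := by
    classical
    intro S
    induction S using Finset.induction_on with
    | empty => simp
    | insert a S ha ih => rw [Finset.prod_insert ha, Finset.sum_insert ha, ih, zpow_add₀ ht]
  exact h2 _

theorem log_mono (hf : ∀ j, Differentiable ℂ (f j)) (α : Fin m →₀ ℕ)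
    (h : ∏ j, f j z0 ^ α j ≠ 0) :
    logDeriv (fun z => ∏ j, f j z ^ α j) z0 = ∑ j, (α j : ℂ) * (deriv (f j) z0 / f j z0) := by
  rw [Finset.prod_ne_zero_iff] at h
  rw [logDeriv_prod]
  · refine Finset.sum_congr rfl fun j _ => ?_
    rw [logDeriv_fun_pow (hf j z0)]
    rfl
  · intro j hj
    exact h j hj
  · intro j _
    exact ((hf j z0).pow _)

theorem mono_spec (hf : ∀ j, Differentiable ℂ (f j))
    (hb : ∀ q : Fin m → ℤ, ∑ j, (q j : ℂ) * (deriv (f j) z0 / f j z0) = 0 → ∑ j, q j * b j = 0)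
    (ht : t ≠ 0) (α β : Fin m →₀ ℕ) (A B : ℂ)
    (h : ∀ z, A * ∏ j, f j z ^ α j + B * ∏ j, f j z ^ β j = 0) :
    A * ∏ j, (f j z0 * t ^ b j) ^ α j + B * ∏ j, (f j z0 * t ^ b j) ^ β j = 0 := by
  rw [torus_mono f z0 b t ht, torus_mono f z0 b t ht]
  have h0 := h z0
  by_cases hA : A = 0
  · rw [hA, zero_mul, zero_add] at h0 ⊢
    rw [← mul_assoc, h0, zero_mul]
  by_cases hB : B = 0
  · rw [hB, zero_mul, add_zero] at h0 ⊢
    rw [← mul_assoc, h0, zero_mul]
  by_cases hα : ∏ j, f j z0 ^ α j = 0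
  · rw [hα, mul_zero, zero_add] at h0
    have hβ := (mul_eq_zero.1 h0).resolve_left hB
    rw [hα, hβ]
    ring
  have hβ : ∏ j, f j z0 ^ β j ≠ 0 := by
    intro hβ
    rw [hβ, mul_zero, add_zero] at h0
    exact hα ((mul_eq_zero.1 h0).resolve_left hA)
  have h1 : (fun z => ∏ j, f j z ^ α j) = fun z => (-B / A) * ∏ j, f j z ^ β j := by
    funext z
    have h2 := h z
    field_simp
    linear_combination h2
  have h2 := log_mono f z0 hf α hα
  rw [h1, logDeriv_const_mul z0 (-B / A) (div_ne_zero (neg_ne_zero.2 hB) hA),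
    log_mono f z0 hf β hβ] at h2
  have h3 := hb (fun j => (α j : ℤ) - (β j : ℤ)) (by
    push_cast
    simp only [sub_mul]
    rw [Finset.sum_sub_distrib, ← h2, sub_self])
  simp only [sub_mul] at h3
  rw [Finset.sum_sub_distrib, sub_eq_zero] at h3
  rw [h3]
  linear_combination t ^ (∑ j, (β j : ℤ) * b j) * h0

/-- Proportionality of gates along an entire curve is preserved by the torus action. -/
theorem gateM_spec (hf : ∀ j, Differentiable ℂ (f j))
    (hb : ∀ q : Fin m → ℤ, ∑ j, (q j : ℂ) * (deriv (f j) z0 / f j z0) = 0 → ∑ j, q j * b j = 0)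
    (ht : t ≠ 0) (L : List (ℕ × ℕ)) : Good L → ∀ p q : MvPolynomial (Fin m) ℂ,
      GateM L p → GateM L q →
      ∀ a c : ℂ, (∀ z, a * eval (fun j => f j z) p + c * eval (fun j => f j z) q = 0) →
        a * eval (fun j => f j z0 * t ^ b j) p + c * eval (fun j => f j z0 * t ^ b j) q = 0 := by
  induction L with
  | nil =>
    rintro - p q ⟨α, a0, rfl⟩ ⟨β, c0, rfl⟩ a c h
    have h1 := mono_spec f z0 b t hf hb ht α β (a * a0) (c * c0) (fun z => by
      have h2 := h z
      rw [eval_mono, eval_mono] at h2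
      linear_combination h2)
    rw [eval_mono, eval_mono]
    linear_combination h1
  | cons ke L ih =>
    rintro hL p q ⟨c, g, hg, rfl⟩ ⟨c', g', hg', rfl⟩ a d h
    have hi := ih hL.tail
    let G : Fin ke.1 ⊕ Fin ke.1 → MvPolynomial (Fin m) ℂ := Sum.elim g g'
    have hG : ∀ i, GateM L (G i) := by
      rintro (i | i)
      · exact hg i
      · exact hg' i
    let cc : Fin ke.1 ⊕ Fin ke.1 → ℂ := Sum.elim (fun i => a * c i) (fun i => d * c' i)
    have hsum : ∀ v : Fin m → ℂ, ∑ i, cc i * eval v (G i) ^ ke.2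
        = a * eval v (∑ i, C (c i) * g i ^ ke.2) + d * eval v (∑ i, C (c' i) * g' i ^ ke.2) := by
      intro v
      rw [eval_sum_pow, eval_sum_pow, Fintype.sum_sum_type, Finset.mul_sum, Finset.mul_sum]
      congr 1
      · exact Finset.sum_congr rfl fun i _ => by simp only [cc, G, Sum.elim_inl]; ring
      · exact Finset.sum_congr rfl fun i _ => by simp only [cc, G, Sum.elim_inr]; ring
    have h1 := Pool.Agent.H159R3.Toric.spec_sum (N := ke.2) hL.pos
      (fun i z => eval (fun j => f j z) (G i)) (fun i => eval_diff hf (G i))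
      (fun i => eval (fun j => f j z0 * t ^ b j) (G i))
      (fun i h0 => by
        have := hi (G i) (G i) (hG i) (hG i) 1 0 (fun z => by rw [h0 z]; ring)
        simpa using this)
      (fun i j α h0 => by
        have := hi (G i) (G j) (hG i) (hG j) 1 (-α) (fun z => by rw [h0 z]; ring)
        linear_combination this)
      Finset.univ (by
        rw [Finset.card_univ, Fintype.card_sum, Fintype.card_fin, ← two_mul]
        exact hL.head.2) cc (fun z => by rw [hsum, h z])
    rw [hsum] at h1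
    exact h1

theorem towerM_spec {F : MvPolynomial (Fin m) ℂ} (hF : TowerM F)
    (hf : ∀ j, Differentiable ℂ (f j))
    (hb : ∀ q : Fin m → ℤ, ∑ j, (q j : ℂ) * (deriv (f j) z0 / f j z0) = 0 → ∑ j, q j * b j = 0)
    (ht : t ≠ 0) (h : ∀ z, eval (fun j => f j z) F = 0) :
    eval (fun j => f j z0 * t ^ b j) F = 0 := by
  obtain ⟨s, e, L, c, g, he, hs, hL, hg, rfl⟩ := hF
  have hi := gateM_spec f z0 b t hf hb ht L hL
  have h1 := Pool.Agent.H159R3.Toric.spec_sum (N := e) he
    (fun i z => eval (fun j => f j z) (g i)) (fun i => eval_diff hf (g i))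
    (fun i => eval (fun j => f j z0 * t ^ b j) (g i))
    (fun i h0 => by
      have := hi (g i) (g i) (hg i) (hg i) 1 0 (fun z => by rw [h0 z]; ring)
      simpa using this)
    (fun i j α h0 => by
      have := hi (g i) (g j) (hg i) (hg j) 1 (-α) (fun z => by rw [h0 z]; ring)
      linear_combination this)
    Finset.univ (by rw [Finset.card_univ, Fintype.card_fin]; exact hs) c (fun z => by
      rw [← h z, eval_sum_pow])
  rw [eval_sum_pow, h1]

end

end Pool.Agent.TH710.NW
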